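import Pool.Agent.Helper19.AAT.Big

/-!
# AAE: the criterion with odd exponents
-/

set_option autoImplicit false

open Polynomial

namespace Pool.Agent.Helper86.XE

/-- `l` is a prime modulo which `h` is separable and whose exponent in the resultant is odd. -/
def NiceO (q : ℕ) (h : ℤ[X]) (l : ℕ) : Prop :=
  l.Prime ∧ (h.map (Int.castRingHom (ZMod l))).Separable ∧
    Odd (padicValInt l (h.resultant (X ^ 2 - C (4 * (q : ℤ)))))

/-- Nice primes larger than `W` with product at least `Y`. -/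
def BigW (q W : ℕ) (Y : ℝ) (h : ℤ[X]) : Prop :=
  ∃ L : Finset ℕ, (∀ l ∈ L, W < l ∧ NiceO q h l) ∧ Y ≤ ∏ l ∈ L, (l : ℝ)

end Pool.Agent.Helper86.XE
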