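import Pool.Agent.Helper12.MM.LogLow
import Pool.Agent.Helper12.MM.LogUp

/-!
# AAE, leaf G3: Mertens (from `Helper12.MM`) and the primes dividing a number. (helper10)
-/

set_option autoImplicit false

namespace Pool.Agent.Helper86.XE

theorem filter_Icc_eq (Q : ℕ) : (Finset.Icc 1 Q).filter Nat.Prime = (Finset.range (Q + 1)).filter Nat.Prime := by
  ext p
  rw [Finset.mem_filter, Finset.mem_filter, Finset.mem_Icc, Finset.mem_range]
  constructor
  · rintro ⟨⟨_, h⟩, hp⟩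
    exact ⟨by omega, hp⟩
  · rintro ⟨h, hp⟩
    exact ⟨⟨hp.one_lt.le, by omega⟩, hp⟩

theorem mertens_lower : ∃ C : ℝ, ∀ Q : ℕ, 1 ≤ Q →
    Real.log Q - C ≤ ∑ p ∈ (Finset.Icc 1 Q).filter Nat.Prime, Real.log p / p := by
  refine ⟨4, fun Q hQ => ?_⟩
  rw [filter_Icc_eq]
  exact Pool.Agent.Helper12.MM.logp_low Q hQ

theorem primes_dvd_sum : ∃ C : ℝ, ∀ (B : ℝ), 2 ≤ B → ∀ (N : ℤ), N ≠ 0 → ∀ P : Finset ℕ,
    (∀ p ∈ P, p.Prime ∧ (p : ℤ) ∣ N) →
    ∑ p ∈ P, Real.log p / p ≤ Real.log |(N : ℝ)| / B + C * Real.log B ^ 2 := by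
  classical
  refine ⟨6, fun B hB N hN P hP => ?_⟩
  have hB0 : 0 < B := by linarith
  have hlog0 : ∀ p ∈ P, 0 ≤ Real.log (p : ℝ) / p := fun p _ =>
    div_nonneg (Real.log_natCast_nonneg p) (Nat.cast_nonneg p)
  rw [← Finset.sum_filter_add_sum_filter_not P (fun p : ℕ => B < (p : ℝ))]
  have h1 : ∑ p ∈ P.filter (fun p : ℕ => B < (p : ℝ)), Real.log p / p ≤ Real.log |(N : ℝ)| / B := by
    have h2 : ∏ p ∈ P.filter (fun p : ℕ => B < (p : ℝ)), p ∣ N.natAbs := by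
      refine Finset.prod_primes_dvd _ (fun p hp => (hP p (Finset.mem_filter.1 hp).1).1.prime) fun p hp => ?_
      exact Int.natCast_dvd.1 (hP p (Finset.mem_filter.1 hp).1).2
    have h3 : ∏ p ∈ P.filter (fun p : ℕ => B < (p : ℝ)), p ≤ N.natAbs := Nat.le_of_dvd (Int.natAbs_pos.2 hN) h2
    have h4 : ((∏ p ∈ P.filter (fun p : ℕ => B < (p : ℝ)), p : ℕ) : ℝ) ≤ |(N : ℝ)| := by
      rw [← Int.cast_abs, Int.abs_eq_natAbs, Int.cast_natCast]
      exact_mod_cast h3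
    have hpos : ∀ p ∈ P.filter (fun p : ℕ => B < (p : ℝ)), (0 : ℝ) < p := fun p hp => by
      exact_mod_cast (hP p (Finset.mem_filter.1 hp).1).1.pos
    have h5 : ∑ p ∈ P.filter (fun p : ℕ => B < (p : ℝ)), Real.log (p : ℝ) ≤ Real.log |(N : ℝ)| := by
      rw [← Real.log_prod fun p hp => (hpos p hp).ne']
      refine Real.log_le_log (Finset.prod_pos hpos) ?_
      push_cast at h4
      exact h4
    calc ∑ p ∈ P.filter (fun p : ℕ => B < (p : ℝ)), Real.log (p : ℝ) / p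
        ≤ ∑ p ∈ P.filter (fun p : ℕ => B < (p : ℝ)), Real.log (p : ℝ) / B := by
          refine Finset.sum_le_sum fun p hp => ?_
          exact div_le_div_of_nonneg_left (Real.log_natCast_nonneg p) hB0 (Finset.mem_filter.1 hp).2.le
      _ = (∑ p ∈ P.filter (fun p : ℕ => B < (p : ℝ)), Real.log (p : ℝ)) / B := by
          rw [Finset.sum_div]
      _ ≤ Real.log |(N : ℝ)| / B := div_le_div_of_nonneg_right h5 hB0.le
  have h6 : ∑ p ∈ P.filter (fun p : ℕ => ¬ B < (p : ℝ)), Real.log (p : ℝ) / p ≤ 6 * Real.log B ^ 2 := by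
    have hf : 1 ≤ ⌊B⌋₊ := by
      apply Nat.le_floor
      push_cast
      linarith
    have h7 : ∑ p ∈ P.filter (fun p : ℕ => ¬ B < (p : ℝ)), Real.log (p : ℝ) / p ≤
        ∑ p ∈ (Finset.range (⌊B⌋₊ + 1)).filter Nat.Prime, Real.log (p : ℝ) / p := by
      refine Finset.sum_le_sum_of_subset_of_nonneg ?_ fun p _ _ =>
        div_nonneg (Real.log_natCast_nonneg p) (Nat.cast_nonneg p)
      intro p hp
      rw [Finset.mem_filter] at hp ⊢
      refine ⟨?_, (hP p hp.1).1⟩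
      rw [Finset.mem_range]
      have : p ≤ ⌊B⌋₊ := Nat.le_floor (not_lt.1 hp.2)
      omega
    have h8 := Pool.Agent.Helper12.MM.logp_up ⌊B⌋₊ hf
    have h9 : Real.log (⌊B⌋₊ : ℝ) ≤ Real.log B :=
      Real.log_le_log (by exact_mod_cast hf) (Nat.floor_le hB0.le)
    have h10 : (2 : ℝ) / 3 ≤ Real.log B := by
      have h11 := Real.log_two_gt_d9
      have h12 := Real.log_le_log (by norm_num) hB
      linarith
    nlinarith
  linarith

end Pool.Agent.Helper86.XE
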