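import Pool.Agent.Helper2.AAE.Conic
import Pool.Agent.Helper58.AAE.Conic
import Pool.Agent.Helper86.XE.Mert

/-!
# G4: the number of points of a conic `x ^ 2 - D = s * y ^ 2` in an interval
-/

set_option autoImplicit false

namespace Pool.Agent.Helper86.XE

theorem conic_count (C : ℝ) : ∃ G : ℕ, ∀ g ≥ G, ∀ M : ℕ, (101 / 100 : ℝ) ^ g ≤ M →
    ∀ a D s : ℤ, D ≠ 0 → s ≠ 0 → Real.log |((2 * s * D : ℤ) : ℝ)| ≤ C * (g : ℝ) ^ 2 →
    ∀ A : Finset ℤ, A ⊆ Finset.Ico a (a + M) → (∀ x ∈ A, ∃ y : ℤ, x ^ 2 - D = s * y ^ 2) →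
    (A.card : ℝ) ≤ 2 * (M : ℝ) ^ (9 / 10 : ℝ) :=
  Pool.Agent.Helper2.AAE.conic_count_of
    (fun p hp hp2 s D hs hD A hA => by
      have : Fact p.Prime := ⟨hp⟩
      refine le_trans (Nat.mul_le_mul_left 2 (Finset.card_le_card fun x hx => ?_))
        (Pool.Agent.Helper58.AAE.conic_card hp2 s D hs hD)
      exact Finset.mem_filter.2 ⟨Finset.mem_univ x, hA x hx⟩)
    mertens_lower primes_dvd_sum C

end Pool.Agent.Helper86.XE
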