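import Pool.Agent.Helper86.XE.Kernel

/-!
# AAE, K2: the count for one tuple of the other coefficients
-/

set_option autoImplicit false

namespace Pool.Agent.Helper86.XE

theorem sum_choose_le (n j : ℕ) : ∑ i ∈ Finset.range j, n.choose i ≤ (n + 1) ^ j := by
  rw [add_pow]
  calc ∑ i ∈ Finset.range j, n.choose i ≤ ∑ i ∈ Finset.range (j + 1), n.choose i :=
        Finset.sum_le_sum_of_subset (Finset.range_mono (Nat.le_succ j))
    _ ≤ ∑ i ∈ Finset.range (j + 1), n ^ i * 1 ^ (j - i) * j.choose i := by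
      refine Finset.sum_le_sum (fun i hi => ?_)
      have h1 : n.choose i ≤ n ^ i := Nat.choose_le_pow n i
      have h2 : 1 ≤ j.choose i := Nat.choose_pos (by
        have := Finset.mem_range.1 hi; omega)
      rw [one_pow, mul_one]
      exact le_trans h1 (Nat.le_mul_of_pos_right _ h2)

theorem card_small_subsets (S : Finset ℕ) (j : ℕ) :
    ((S.powerset.filter fun A => A.card < j).card) ≤ (S.card + 1) ^ j := by
  classical
  refine le_trans ?_ (sum_choose_le S.card j)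
  have h1 : S.powerset.filter (fun A => A.card < j) ⊆
      (Finset.range j).biUnion (fun i => S.powersetCard i) := by
    intro A hA
    rw [Finset.mem_filter, Finset.mem_powerset] at hA
    rw [Finset.mem_biUnion]
    exact ⟨A.card, Finset.mem_range.2 hA.2, Finset.mem_powersetCard.2 ⟨hA.1, rfl⟩⟩
  refine le_trans (Finset.card_le_card h1) (le_trans Finset.card_biUnion_le ?_)
  refine Finset.sum_le_sum (fun i _ => ?_)
  rw [Finset.card_powersetCard]

/-- the part of `T` with few prime factors in `S` -/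
theorem few_count (a : ℤ) (M : ℕ) (S : Finset ℕ) (e D : ℤ)
    (j : ℕ) (Y N : ℝ) (hY : 1 ≤ Y) (hN : 0 ≤ N)
    (hconic : ∀ s : ℤ, s ≠ 0 → (s = 1 ∨ ∃ t ∈ Finset.Ico a (a + (M : ℤ)), |s| ≤ |(t + e) ^ 2 - D|) →
      ∀ A : Finset ℤ, A ⊆ Finset.Ico (a + e) (a + e + M) → (∀ x ∈ A, ∃ y : ℤ, x ^ 2 - D = s * y ^ 2) →
      (A.card : ℝ) ≤ N)
    (T : Finset ℤ) (hT : T ⊆ Finset.Ico a (a + M))
    (hTY : ∀ t ∈ T, ∀ B : Finset ℕ, (∀ l ∈ B, l ∉ S ∧ l.Prime ∧ (l : ℤ) ∣ (t + e) ^ 2 - D ∧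
      Odd (padicValInt l ((t + e) ^ 2 - D))) → ∏ l ∈ B, (l : ℝ) < Y)
    (h0 : ∀ t ∈ T, (t + e) ^ 2 - D ≠ 0)
    (hj : ∀ t ∈ T, (S.filter fun l : ℕ => (l : ℤ) ∣ (t + e) ^ 2 - D).card < j) :
    (T.card : ℝ) ≤ (2 * Y * ((S.card : ℝ) + 1) ^ j) * N := by
  classical
  have hk : ∀ t : ℤ, ∃ (A : Finset ℕ) (k : ℕ) (ε y : ℤ), t ∈ T →
      (A ⊆ S ∧ A.card < j) ∧ (1 ≤ k ∧ (k : ℝ) < Y) ∧ (ε = 1 ∨ ε = -1) ∧
      (∏ l ∈ A, (l : ℤ)) ≠ 0 ∧ (t + e) ^ 2 - D = (ε * (∏ l ∈ A, (l : ℤ)) * k) * y ^ 2 := by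
    intro t
    by_cases ht : t ∈ T
    · obtain ⟨A, B, y, ε, hA, hB, hε, hR⟩ := kernel ((t + e) ^ 2 - D) (h0 t ht) S
      refine ⟨A, ∏ l ∈ B, l, ε, y, fun _ => ⟨⟨fun l hl => (hA l hl).1, ?_⟩, ⟨?_, ?_⟩, hε, ?_, ?_⟩⟩
      · refine lt_of_le_of_lt (Finset.card_le_card ?_) (hj t ht)
        intro l hl
        rw [Finset.mem_filter]
        exact ⟨(hA l hl).1, (hA l hl).2.2⟩
      · exact Nat.one_le_iff_ne_zero.2 (Finset.prod_ne_zero_iff.2 (fun l hl => (hB l hl).2.1.ne_zero))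
      · have := hTY t ht B hB
        rw [Nat.cast_prod]
        exact this
      · exact Finset.prod_ne_zero_iff.2 (fun l hl => by
          have := (hA l hl).2.1.ne_zero
          exact_mod_cast this)
      · rw [Nat.cast_prod]
        exact hR
    · exact ⟨∅, 0, 0, 0, fun h => absurd h ht⟩
  choose fA fk fε fy hf using hk
  let U : Finset (ℤ × Finset ℕ × ℕ) :=
    ({1, -1} : Finset ℤ) ×ˢ ((S.powerset.filter fun A => A.card < j) ×ˢ Finset.Ico 1 ⌈Y⌉₊)
  let F : ℤ → ℤ × Finset ℕ × ℕ := fun t => (fε t, fA t, fk t)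
  have hmaps : ∀ t ∈ T, F t ∈ U := by
    intro t ht
    obtain ⟨⟨h1, h2⟩, ⟨h3, h4⟩, h5, _, _⟩ := hf t ht
    simp only [U, F, Finset.mem_product, Finset.mem_insert, Finset.mem_singleton,
      Finset.mem_filter, Finset.mem_powerset, Finset.mem_Ico]
    exact ⟨h5, ⟨h1, h2⟩, h3, Nat.lt_ceil.2 h4⟩
  have hcard : T.card = ∑ b ∈ U, (T.filter fun t => F t = b).card :=
    Finset.card_eq_sum_card_fiberwise hmaps
  have hfib : ∀ b ∈ U, ((T.filter fun t => F t = b).card : ℝ) ≤ N := by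
    rintro ⟨ε, A, k⟩ _
    rcases Finset.eq_empty_or_nonempty (T.filter fun t => F t = (ε, A, k)) with hemp | ⟨t0, ht0⟩
    · rw [hemp]; simpa using hN
    · have hinj : (Finset.image (fun t => t + e) (T.filter fun t => F t = (ε, A, k))).card =
          (T.filter fun t => F t = (ε, A, k)).card :=
        Finset.card_image_of_injective _ (fun x y h => by simpa using h)
      rw [← hinj]
      have hs : ∀ t ∈ T.filter (fun t => F t = (ε, A, k)),
          (t + e) ^ 2 - D = (ε * (∏ l ∈ A, (l : ℤ)) * k) * (fy t) ^ 2 := by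
        intro t ht
        rw [Finset.mem_filter] at ht
        have h1 := (hf t ht.1).2.2.2.2
        have h2 : fε t = ε ∧ fA t = A ∧ fk t = k := by
          have := ht.2
          simp only [F, Prod.mk.injEq] at this
          exact this
        rw [h2.1, h2.2.1, h2.2.2] at h1
        exact h1
      have hT0 := (Finset.mem_filter.1 ht0).1
      have hR0 := hs t0 ht0
      have hne := h0 t0 hT0
      refine hconic (ε * (∏ l ∈ A, (l : ℤ)) * k) ?_ (Or.inr ⟨t0, hT hT0, ?_⟩) _ ?_ ?_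
      · intro h
        rw [h, zero_mul] at hR0
        exact hne hR0
      · rw [hR0, abs_mul (ε * (∏ l ∈ A, (l : ℤ)) * k)]
        have hy : fy t0 ≠ 0 := by
          intro h
          rw [h] at hR0
          apply hne
          rw [hR0]; ring
        have h1 : 1 ≤ |fy t0 ^ 2| := Int.one_le_abs (pow_ne_zero 2 hy)
        exact le_mul_of_one_le_right (abs_nonneg _) h1
      · intro x hx
        rw [Finset.mem_image] at hx
        obtain ⟨t, ht, rfl⟩ := hx
        have := Finset.mem_Ico.1 (hT (Finset.mem_filter.1 ht).1)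
        rw [Finset.mem_Ico]
        omega
      · intro x hx
        rw [Finset.mem_image] at hx
        obtain ⟨t, ht, rfl⟩ := hx
        exact ⟨fy t, hs t ht⟩
  have hU : (U.card : ℝ) ≤ 2 * Y * ((S.card : ℝ) + 1) ^ j := by
    have h1 : U.card = 2 * ((S.powerset.filter fun A => A.card < j).card * (⌈Y⌉₊ - 1)) := by
      simp only [U, Finset.card_product, Nat.card_Ico]
      rfl
    rw [h1]
    have h2 : (((S.powerset.filter fun A => A.card < j).card : ℕ) : ℝ) ≤ ((S.card : ℝ) + 1) ^ j := by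
      exact_mod_cast card_small_subsets S j
    have h3 : ((⌈Y⌉₊ - 1 : ℕ) : ℝ) ≤ Y := by
      have h4 : (⌈Y⌉₊ : ℝ) < Y + 1 := Nat.ceil_lt_add_one (by linarith)
      have h5 : 1 ≤ ⌈Y⌉₊ := Nat.one_le_ceil_iff.2 (by linarith)
      rw [Nat.cast_sub h5]
      push_cast
      linarith
    push_cast
    have h6 : (((S.powerset.filter fun A => A.card < j).card : ℕ) : ℝ) * ((⌈Y⌉₊ - 1 : ℕ) : ℝ) ≤
        ((S.card : ℝ) + 1) ^ j * Y :=
      mul_le_mul h2 h3 (Nat.cast_nonneg _) (by positivity)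
    nlinarith [h6]
  rw [hcard]
  push_cast
  calc ∑ b ∈ U, ((T.filter fun t => F t = b).card : ℝ) ≤ ∑ b ∈ U, N := Finset.sum_le_sum hfib
    _ = U.card * N := by rw [Finset.sum_const, nsmul_eq_mul]
    _ ≤ _ := mul_le_mul_of_nonneg_right hU hN

theorem count_core_of (a : ℤ) (M : ℕ) (S : Finset ℕ) (e D : ℤ)
    (j : ℕ) (Y N Z : ℝ) (hY : 1 ≤ Y) (hN : 0 ≤ N)
    (hmany : ((((Finset.Ico a (a + M)).filter fun t =>
      j ≤ (S.filter fun l : ℕ => (l : ℤ) ∣ (t + e) ^ 2 - D).card).card : ℕ) : ℝ) ≤ Z)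
    (hconic : ∀ s : ℤ, s ≠ 0 → (s = 1 ∨ ∃ t ∈ Finset.Ico a (a + (M : ℤ)), |s| ≤ |(t + e) ^ 2 - D|) →
      ∀ A : Finset ℤ, A ⊆ Finset.Ico (a + e) (a + e + M) → (∀ x ∈ A, ∃ y : ℤ, x ^ 2 - D = s * y ^ 2) →
      (A.card : ℝ) ≤ N)
    (T : Finset ℤ) (hT : T ⊆ Finset.Ico a (a + M))
    (hTY : ∀ t ∈ T, ∀ B : Finset ℕ, (∀ l ∈ B, l ∉ S ∧ l.Prime ∧ (l : ℤ) ∣ (t + e) ^ 2 - D ∧
      Odd (padicValInt l ((t + e) ^ 2 - D))) → ∏ l ∈ B, (l : ℝ) < Y) :
    (T.card : ℝ) ≤ Z + (2 * Y * ((S.card : ℝ) + 1) ^ j + 1) * N := by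
  classical
  let T1 := T.filter fun t => j ≤ (S.filter fun l : ℕ => (l : ℤ) ∣ (t + e) ^ 2 - D).card
  let T2 := T.filter fun t => (t + e) ^ 2 - D = 0
  let T3 := T.filter fun t => (t + e) ^ 2 - D ≠ 0 ∧
    (S.filter fun l : ℕ => (l : ℤ) ∣ (t + e) ^ 2 - D).card < j
  have hcov : T ⊆ T1 ∪ T2 ∪ T3 := by
    intro t ht
    simp only [T1, T2, T3, Finset.mem_union, Finset.mem_filter, ht, true_and]
    by_cases h1 : j ≤ (S.filter fun l : ℕ => (l : ℤ) ∣ (t + e) ^ 2 - D).card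
    · exact Or.inl (Or.inl h1)
    · by_cases h2 : (t + e) ^ 2 - D = 0
      · exact Or.inl (Or.inr h2)
      · exact Or.inr ⟨h2, not_le.1 h1⟩
  have h1 : (T1.card : ℝ) ≤ Z := by
    refine le_trans ?_ hmany
    have : T1.card ≤ ((Finset.Ico a (a + M)).filter fun t =>
      j ≤ (S.filter fun l : ℕ => (l : ℤ) ∣ (t + e) ^ 2 - D).card).card :=
      Finset.card_le_card (Finset.filter_subset_filter _ hT)
    exact_mod_cast this
  have h2 : (T2.card : ℝ) ≤ N := by
    have hinj : (Finset.image (fun t => t + e) T2).card = T2.card :=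
      Finset.card_image_of_injective _ (fun x y h => by simpa using h)
    rw [← hinj]
    refine hconic 1 one_ne_zero (Or.inl rfl) _ ?_ ?_
    · intro x hx
      rw [Finset.mem_image] at hx
      obtain ⟨t, ht, rfl⟩ := hx
      have := Finset.mem_Ico.1 (hT (Finset.mem_filter.1 ht).1)
      rw [Finset.mem_Ico]
      omega
    · intro x hx
      rw [Finset.mem_image] at hx
      obtain ⟨t, ht, rfl⟩ := hx
      exact ⟨0, by rw [(Finset.mem_filter.1 ht).2]; ring⟩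
  have h3 : (T3.card : ℝ) ≤ (2 * Y * ((S.card : ℝ) + 1) ^ j) * N :=
    few_count a M S e D j Y N hY hN hconic T3 ((Finset.filter_subset _ _).trans hT)
      (fun t ht => hTY t (Finset.mem_filter.1 ht).1) (fun t ht => (Finset.mem_filter.1 ht).2.1)
      (fun t ht => (Finset.mem_filter.1 ht).2.2)
  have h4 : T.card ≤ T1.card + T2.card + T3.card :=
    (Finset.card_le_card hcov).trans ((Finset.card_union_le _ _).trans
      (Nat.add_le_add_right (Finset.card_union_le _ _) _))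
  have h5 : (T.card : ℝ) ≤ T1.card + T2.card + T3.card := by exact_mod_cast h4
  linarith

end Pool.Agent.Helper86.XE
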