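import Mathlib

/-!
# AAE, leaf CC (helper83): classes modulo several primes
-/

set_option autoImplicit false

namespace Pool.Agent.Helper86.XE

open Finset

/-- elements of an interval which are congruent modulo `P` -/
theorem card_congr_le (a : ℤ) (M : ℕ) {P : ℕ} (hP : 0 < P) {F : Finset ℤ}
    (hF : F ⊆ Ico a (a + M)) (h : ∀ t ∈ F, ∀ t' ∈ F, (P : ℤ) ∣ t - t') : F.card ≤ M / P + 1 := by
  rcases F.eq_empty_or_nonempty with rfl | hne
  · simp
  set t0 := F.min' hne with ht0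
  have h0 : t0 ∈ F := F.min'_mem hne
  have hP' : (0 : ℤ) < P := by exact_mod_cast hP
  have hmaps : ∀ t ∈ F, ((t - t0) / (P : ℤ)).toNat ∈ range (M / P + 1) := by
    intro t ht
    have h1 := mem_Ico.1 (hF ht)
    have h2 := mem_Ico.1 (hF h0)
    rw [mem_range, Nat.lt_succ_iff]
    have h3 : (t - t0) / (P : ℤ) ≤ (M : ℤ) / P := Int.ediv_le_ediv hP' (by omega)
    have h4 : ((M / P : ℕ) : ℤ) = (M : ℤ) / P := Int.natCast_div M P
    rw [← h4] at h3
    exact Int.toNat_le.2 h3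
  have hinj : Set.InjOn (fun t : ℤ => ((t - t0) / (P : ℤ)).toNat) (F : Set ℤ) := by
    intro t ht t' ht' he
    have ht := mem_coe.1 ht
    have ht' := mem_coe.1 ht'
    dsimp only at he
    have hm1 : t0 ≤ t := F.min'_le t ht
    have hm2 : t0 ≤ t' := F.min'_le t' ht'
    obtain ⟨u, hu⟩ := h t ht t0 h0
    obtain ⟨u', hu'⟩ := h t' ht' t0 h0
    rw [hu, hu', Int.mul_ediv_cancel_left _ hP'.ne', Int.mul_ediv_cancel_left _ hP'.ne'] at he
    have hu0 : 0 ≤ u := by
      by_contra hc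
      have : (P : ℤ) * u < 0 := mul_neg_of_pos_of_neg hP' (not_le.1 hc)
      omega
    have hu0' : 0 ≤ u' := by
      by_contra hc
      have : (P : ℤ) * u' < 0 := mul_neg_of_pos_of_neg hP' (not_le.1 hc)
      omega
    have hee : u = u' := by omega
    rw [hee] at hu
    omega
  have := card_le_card_of_injOn _ hmaps hinj
  rwa [card_range] at this

theorem class_count (a : ℤ) (M : ℕ) (A : Finset ℕ) (hA : ∀ l ∈ A, l.Prime) (c : ℕ → Finset ℤ)
    (T : Finset ℤ) (hT : T ⊆ Finset.Ico a (a + M)) (h : ∀ t ∈ T, ∀ l ∈ A, ∃ x ∈ c l, (l : ℤ) ∣ t - x) :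
    (T.card : ℝ) ≤ (∏ l ∈ A, ((c l).card : ℝ)) * (M / (∏ l ∈ A, (l : ℝ)) + 1) := by
  classical
  choose! x hx1 hx2 using h
  set P : ℕ := ∏ l ∈ A, l with hPdef
  have hP : 0 < P := prod_pos fun l hl => (hA l hl).pos
  let f : ℤ → (∀ l ∈ A, ℤ) := fun t l _ => x t l
  have hfib : ∀ φ ∈ T.image f, (T.filter fun t => f t = φ).card ≤ M / P + 1 := by
    intro φ _
    refine card_congr_le a M hP ((filter_subset _ _).trans hT) ?_
    intro t ht t' ht'
    rw [mem_filter] at ht ht'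
    have h1 : ∀ l ∈ A, (l : ℤ) ∣ t - t' := by
      intro l hl
      have h2 := hx2 t ht.1 l hl
      have h3 := hx2 t' ht'.1 l hl
      have h4 : x t l = x t' l := congrFun (congrFun (ht.2.trans ht'.2.symm) l) hl
      rw [h4] at h2
      have h5 := dvd_sub h2 h3
      rwa [sub_sub_sub_cancel_right] at h5
    rw [Int.natCast_dvd]
    refine prod_primes_dvd _ (fun l hl => (hA l hl).prime) fun l hl => ?_
    exact Int.natCast_dvd.1 (h1 l hl)
  have h1 := card_le_mul_card_image (f := f) T (M / P + 1) hfib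
  have h2 : (T.image f).card ≤ ∏ l ∈ A, (c l).card := by
    rw [← card_pi]
    refine card_le_card fun φ hφ => ?_
    obtain ⟨t, ht, rfl⟩ := mem_image.1 hφ
    exact mem_pi.2 fun l hl => hx1 t ht l hl
  have h3 : T.card ≤ (M / P + 1) * ∏ l ∈ A, (c l).card := h1.trans (Nat.mul_le_mul_left _ h2)
  have h4 : (((M / P : ℕ) : ℝ)) ≤ (M : ℝ) / (∏ l ∈ A, (l : ℝ)) := by
    refine Nat.cast_div_le.trans (le_of_eq ?_)
    rw [hPdef]
    push_cast
    rfl
  calc (T.card : ℝ) ≤ (((M / P + 1) * ∏ l ∈ A, (c l).card : ℕ) : ℝ) := by exact_mod_cast h3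
    _ = (∏ l ∈ A, ((c l).card : ℝ)) * (((M / P : ℕ) : ℝ) + 1) := by push_cast; ring
    _ ≤ _ := mul_le_mul_of_nonneg_left (by linarith) (prod_nonneg fun l _ => Nat.cast_nonneg _)

end Pool.Agent.Helper86.XE
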