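import Pool.Agent.Helper86.XE.Esymm
import Pool.Agent.Helper86.XE.Class

/-!
# AAE (MP_de89cc), S1: few `t` in an interval for which `(t + e) ^ 2 - D` has many prime factors in `S`
-/

set_option autoImplicit false

namespace Pool.Agent.Helper86.XE

theorem two_classes {l : ℕ} (hl : l.Prime) (e D : ℤ) : ∃ c : Finset ℤ, c.card ≤ 2 ∧
    ∀ t : ℤ, (l : ℤ) ∣ (t + e) ^ 2 - D → ∃ x ∈ c, (l : ℤ) ∣ t - x := by
  classical
  by_cases h : ∃ t0 : ℤ, (l : ℤ) ∣ (t0 + e) ^ 2 - D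
  · obtain ⟨t0, h0⟩ := h
    refine ⟨{t0, -t0 - 2 * e}, Finset.card_le_two, fun t ht => ?_⟩
    have h1 : (l : ℤ) ∣ (t - t0) * (t - (-t0 - 2 * e)) := by
      have h2 := dvd_sub ht h0
      have e1 : (t + e) ^ 2 - D - ((t0 + e) ^ 2 - D) = (t - t0) * (t - (-t0 - 2 * e)) := by ring
      rwa [e1] at h2
    rcases (Nat.prime_iff_prime_int.1 hl).dvd_or_dvd h1 with h2 | h2
    · exact ⟨t0, by simp, h2⟩
    · exact ⟨-t0 - 2 * e, by simp, h2⟩
  · exact ⟨∅, by simp, fun t ht => absurd ⟨t, ht⟩ h⟩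

theorem many (a : ℤ) (M : ℕ) (S : Finset ℕ) (hS : ∀ l ∈ S, l.Prime) (e D : ℤ) (j : ℕ) :
    ((((Finset.Ico a (a + M)).filter fun t =>
      j ≤ (S.filter fun l : ℕ => (l : ℤ) ∣ (t + e) ^ 2 - D).card).card : ℕ) : ℝ) ≤
      2 ^ j * (M * ((∑ l ∈ S, (1 : ℝ) / l) ^ j / j.factorial) + (S.card : ℝ) ^ j) := by
  have hc : ∀ l : ℕ, ∃ c : Finset ℤ, l.Prime → c.card ≤ 2 ∧
      ∀ t : ℤ, (l : ℤ) ∣ (t + e) ^ 2 - D → ∃ x ∈ c, (l : ℤ) ∣ t - x := by
    intro l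
    by_cases hl : l.Prime
    · obtain ⟨c, h1⟩ := two_classes hl e D
      exact ⟨c, fun _ => h1⟩
    · exact ⟨∅, fun h => absurd h hl⟩
  choose c hc using hc
  set J := Finset.Ico a (a + M) with hJ
  have hT : ∀ A ∈ S.powersetCard j,
      ((J.filter fun t => ∀ l ∈ A, ((l : ℕ) : ℤ) ∣ (t + e) ^ 2 - D).card : ℝ) ≤
        2 ^ j * (M * ∏ l ∈ A, (1 : ℝ) / l) + 2 ^ j * ∏ _l ∈ A, (1 : ℝ) := by
    intro A hA
    obtain ⟨hAS, hAj⟩ := Finset.mem_powersetCard.1 hA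
    have h1 := class_count a M A (fun l hl => hS l (hAS hl)) c
      (J.filter fun t => ∀ l ∈ A, ((l : ℕ) : ℤ) ∣ (t + e) ^ 2 - D) (Finset.filter_subset _ _)
      (fun t ht l hl => (hc l (hS l (hAS hl))).2 t ((Finset.mem_filter.1 ht).2 l hl))
    refine h1.trans ?_
    have h2 : ∏ l ∈ A, ((c l).card : ℝ) ≤ 2 ^ j := by
      rw [← hAj, ← Finset.prod_const]
      refine Finset.prod_le_prod (fun l _ => Nat.cast_nonneg _) fun l hl => ?_
      exact_mod_cast (hc l (hS l (hAS hl))).1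
    have h3 : (M : ℝ) / (∏ l ∈ A, (l : ℝ)) = M * ∏ l ∈ A, (1 : ℝ) / l := by
      rw [Finset.prod_div_distrib, Finset.prod_const_one]
      ring
    rw [h3, Finset.prod_const_one]
    have h4 : 0 ≤ (M : ℝ) * ∏ l ∈ A, (1 : ℝ) / l :=
      mul_nonneg (Nat.cast_nonneg _) (Finset.prod_nonneg fun l _ => by positivity)
    have h5 := mul_le_mul_of_nonneg_right h2 (by linarith : 0 ≤ (M : ℝ) * ∏ l ∈ A, (1 : ℝ) / l + 1)
    linarith
  have hcov : (J.filter fun t =>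
      j ≤ (S.filter fun l : ℕ => (l : ℤ) ∣ (t + e) ^ 2 - D).card) ⊆
      (S.powersetCard j).biUnion fun A => J.filter fun t => ∀ l ∈ A, ((l : ℕ) : ℤ) ∣ (t + e) ^ 2 - D := by
    intro t ht
    rw [Finset.mem_filter] at ht
    obtain ⟨A, hA, hAj⟩ := Finset.exists_subset_card_eq ht.2
    rw [Finset.mem_biUnion]
    refine ⟨A, Finset.mem_powersetCard.2 ⟨fun l hl => (Finset.mem_filter.1 (hA hl)).1, hAj⟩, ?_⟩
    rw [Finset.mem_filter]
    exact ⟨ht.1, fun l hl => (Finset.mem_filter.1 (hA hl)).2⟩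
  have h1 : (((J.filter fun t =>
      j ≤ (S.filter fun l : ℕ => (l : ℤ) ∣ (t + e) ^ 2 - D).card).card : ℕ) : ℝ) ≤
      ∑ A ∈ S.powersetCard j, ((J.filter fun t => ∀ l ∈ A, ((l : ℕ) : ℤ) ∣ (t + e) ^ 2 - D).card : ℝ) := by
    exact_mod_cast (Finset.card_le_card hcov).trans Finset.card_biUnion_le
  refine h1.trans ((Finset.sum_le_sum hT).trans ?_)
  rw [Finset.sum_add_distrib, ← Finset.mul_sum, ← Finset.mul_sum, ← Finset.mul_sum]
  have h2 := esymm_le S (fun l => (1 : ℝ) / l) (fun l _ => by positivity) j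
  have h3 := esymm_le S (fun _ => (1 : ℝ)) (fun _ _ => zero_le_one) j
  have h4 : (∑ _l ∈ S, (1 : ℝ)) ^ j / j.factorial ≤ (S.card : ℝ) ^ j := by
    rw [Finset.sum_const, nsmul_eq_mul, mul_one]
    exact div_le_self (by positivity) (by exact_mod_cast j.factorial_pos)
  have h5 : (0 : ℝ) < 2 ^ j := by positivity
  have h6 := mul_le_mul_of_nonneg_left h2 (Nat.cast_nonneg M : (0 : ℝ) ≤ (M : ℝ))
  have h7 := h3.trans h4
  have h8 := mul_le_mul_of_nonneg_left h6 h5.le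
  have h9 := mul_le_mul_of_nonneg_left h7 h5.le
  rw [mul_add]
  exact add_le_add h8 h9

end Pool.Agent.Helper86.XE
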