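import Pool.Agent.Helper16.UB.Mert

/-!
# AAE: upper bound for the sum of `1 / p` (from `Helper16.UB`). (helper10)
-/

set_option autoImplicit false

namespace Pool.Agent.Helper86.XE

theorem sum_inv_primes_upper : ∃ C : ℝ, ∀ z : ℕ, 3 ≤ z →
    ∑ p ∈ (Finset.Icc 1 z).filter Nat.Prime, (1 : ℝ) / p ≤ Real.log (Real.log z) + C := by
  obtain ⟨C, hC⟩ := Pool.Agent.Helper16.UB.exists_W_le
  exact ⟨C, fun z hz => hC z (by omega)⟩

end Pool.Agent.Helper86.XE
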