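import Pool.Agent.Helper86.XE.Defs

/-!
# AAE, R1: the resultant as a quadratic polynomial in the last coefficient
-/

set_option autoImplicit false

open Polynomial

namespace Pool.Agent.Helper86.XE

open Pool.Agent.Helper84.AA

theorem eval_epsX (q : ℕ) (H : ℤ[X]) {e : ℂ} (he : e ^ 2 = 4 * q) :
    aeval e H = (evE q H : ℂ) + e * (odO q H : ℂ) := by
  unfold evE odO
  rw [aeval_eq_sum_range]
  push_cast
  rw [Finset.mul_sum, ← Finset.sum_add_distrib]
  refine Finset.sum_congr rfl fun j _ => ?_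
  rcases Nat.even_or_odd j with hj | hj
  · rw [if_pos hj, if_neg (Nat.not_odd_iff_even.2 hj), mul_zero, add_zero]
    obtain ⟨r, hr⟩ := hj
    have h2 : j / 2 = r := by omega
    rw [h2, ← he, ← pow_mul, show 2 * r = j by omega, zsmul_eq_mul]
  · rw [if_neg (Nat.not_even_iff_odd.2 hj), if_pos hj, zero_add]
    obtain ⟨r, hr⟩ := hj
    have h2 : j / 2 = r := by omega
    rw [h2, ← he, ← pow_mul, zsmul_eq_mul, hr, pow_succ]
    ring

theorem res_eq (q : ℕ) {H : ℤ[X]} (hm : H.Monic) (hd : 1 ≤ H.natDegree) (t : ℤ) :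
    (H + C t).resultant (X ^ 2 - C (4 * (q : ℤ))) =
      (t + evE q H) ^ 2 - 4 * q * odO q H ^ 2 := by
  set ψ := Int.castRingHom ℂ with hψ
  have hinj : Function.Injective ψ := (Int.castRingHom ℂ).injective_int
  obtain ⟨e, he⟩ : ∃ e : ℂ, e ^ 2 = 4 * q := IsAlgClosed.exists_pow_nat_eq _ (by norm_num)
  have hnd2 : (X ^ 2 - C (4 * (q : ℤ)) : ℤ[X]).natDegree = 2 := natDegree_X_pow_sub_C
  have hdeg : (C t : ℤ[X]).degree < H.degree := by
    refine lt_of_le_of_lt degree_C_le ?_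
    rw [← natDegree_pos_iff_degree_pos]
    omega
  have hmt : (H + C t).Monic := hm.add_of_left hdeg
  have hdt : (H + C t).natDegree = H.natDegree := natDegree_add_C
  obtain ⟨g, hg⟩ : ∃ g, g = H.natDegree := ⟨_, rfl⟩
  rw [← hg] at hdt
  have hfac : (X ^ 2 - C (4 * (q : ℤ)) : ℤ[X]).map ψ = (X - C e) * (X - C (-e)) := by
    rw [Polynomial.map_sub, Polynomial.map_pow, Polynomial.map_X, Polynomial.map_C]
    have h1 : ψ (4 * (q : ℤ)) = e ^ 2 := by
      rw [he, hψ]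
      simp
    rw [h1, C_neg, C_pow]
    ring
  have hev : ∀ x : ℂ, x ^ 2 = 4 * q → (((H + C t).map ψ).eval x) =
      (evE q H : ℂ) + x * (odO q H : ℂ) + t := by
    intro x hx
    have h1 := eval_epsX q H hx
    rw [Polynomial.map_add, eval_add, Polynomial.map_C, eval_C, eval_map]
    rw [aeval_def] at h1
    have h2 : eval₂ ψ x H = eval₂ (algebraMap ℤ ℂ) x H := by
      congr 1
    rw [h2, h1, hψ]
    simp
  apply hinj
  rw [← resultant_map_map, hfac, hnd2, hdt]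
  have h12 := resultant_mul_right ((H + C t).map ψ) (X - C e) (X - C (-e)) g
    (by rw [hmt.natDegree_map ψ, hdt])
  rw [natDegree_X_sub_C, natDegree_X_sub_C] at h12
  have h13 : (1 : ℕ) + 1 = 2 := rfl
  rw [h13] at h12
  rw [h12, resultant_X_sub_C_right _ _ _ (by rw [hmt.natDegree_map ψ, hdt]),
    resultant_X_sub_C_right _ _ _ (by rw [hmt.natDegree_map ψ, hdt]), hev e he,
    hev (-e) (by rw [neg_sq]; exact he)]
  have hsign : ((-1 : ℂ) ^ g) * ((-1) ^ g) = 1 := by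
    rw [← mul_pow]
    simp
  have hψR : ψ ((t + evE q H) ^ 2 - 4 * q * odO q H ^ 2) =
      ((t : ℂ) + (evE q H : ℂ)) ^ 2 - 4 * q * (odO q H : ℂ) ^ 2 := by
    rw [hψ, eq_intCast]
    push_cast
    ring
  rw [hψR]
  calc (-1) ^ g * ((evE q H : ℂ) + e * (odO q H : ℂ) + t) *
        ((-1) ^ g * ((evE q H : ℂ) + -e * (odO q H : ℂ) + t))
      = (((-1 : ℂ) ^ g) * ((-1) ^ g)) * (((t : ℂ) + (evE q H : ℂ)) ^ 2 -
          e ^ 2 * (odO q H : ℂ) ^ 2) := by ring
    _ = ((t : ℂ) + (evE q H : ℂ)) ^ 2 - 4 * q * (odO q H : ℂ) ^ 2 := by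
        rw [hsign, he, one_mul]

end Pool.Agent.Helper86.XE
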