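import Pool.Agent.Helper84.AA.DeltaBd

/-!
# AAE, R3: the size of the resultant
-/

set_option autoImplicit false

open Polynomial

namespace Pool.Agent.Helper86.XE

open Pool.Agent.Helper84.AA

theorem res_bound (q : ℕ) (hq : 1 ≤ q) : ∃ c : ℝ, 0 < c ∧ ∀ g : ℕ, 1 ≤ g → ∀ u : ℤ[X], ∀ t : ℤ,
    IsTrace q g (X * u + C t) → |((odO q (X * u) : ℤ) : ℝ)| ≤ Real.exp (c * g) ∧
      |(((t + evE q (X * u)) ^ 2 - 4 * q * odO q (X * u) ^ 2 : ℤ) : ℝ)| ≤ Real.exp (c * g) := by
  have hq' : (1 : ℝ) ≤ q := by exact_mod_cast hq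
  have hqz : (1 : ℤ) ≤ q := by exact_mod_cast hq
  set a : ℝ := Real.log (32 * q ^ 2) with ha
  have ha0 : 0 < a := Real.log_pos (by nlinarith)
  refine ⟨3 * a, by positivity, ?_⟩
  intro g hg u t hh
  have hg' : (1 : ℝ) ≤ g := by exact_mod_cast hg
  have hH : X * u + C t - C ((X * u + C t).coeff 0) = X * u := by simp
  have hd : (X * u).natDegree ≤ g := by
    have := natDegree_le hh
    rwa [hH] at this
  have hc : ∀ i, |(X * u).coeff i| ≤ (4 * q : ℤ) ^ g := by
    intro i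
    have := sub_coeff_bd hq hh i
    rwa [hH] at this
  have hO := odO_bd hq hd hc
  have hV := evE_bd hq hd hc
  have ht : |t| ≤ (4 * q : ℤ) ^ g := by
    have := coeff_bd hq hh 0
    simpa using this
  have hqE : (4 * q : ℤ) ^ g ≤ (32 * q ^ 2 : ℤ) ^ g :=
    pow_le_pow_left₀ (by positivity) (by nlinarith) g
  set E : ℤ := (32 * q ^ 2 : ℤ) ^ g with hEdef
  have hE0 : 0 ≤ E := by positivity
  have hE : (E : ℝ) = Real.exp (a * g) := by
    have h1 : Real.exp (a * g) = Real.exp a ^ g := by rw [mul_comm, Real.exp_nat_mul]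
    rw [h1, ha, Real.exp_log (by positivity), hEdef]
    push_cast
    rfl
  have hEE : Real.exp (a * g) ≤ Real.exp (3 * a * g) :=
    Real.exp_le_exp.mpr (by nlinarith [mul_pos ha0 (by linarith : (0 : ℝ) < g)])
  constructor
  · refine le_trans ?_ hEE
    rw [← hE]
    exact_mod_cast hO
  · have h1 : |(t + evE q (X * u)) ^ 2 - 4 * q * odO q (X * u) ^ 2| ≤ 32 * q ^ 2 * E ^ 2 := by
      have e1 : (t + evE q (X * u)) ^ 2 ≤ (2 * E) ^ 2 := by
        rw [← sq_abs]
        have : |t + evE q (X * u)| ≤ 2 * E := by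
          refine (abs_add_le _ _).trans ?_
          linarith
        exact pow_le_pow_left₀ (abs_nonneg _) this 2
      have e2 : odO q (X * u) ^ 2 ≤ E ^ 2 := by
        rw [← sq_abs]
        exact pow_le_pow_left₀ (abs_nonneg _) hO 2
      have e3 : 0 ≤ (t + evE q (X * u)) ^ 2 := sq_nonneg _
      have e4 : 0 ≤ odO q (X * u) ^ 2 := sq_nonneg _
      have e5 : 4 * (q : ℤ) * odO q (X * u) ^ 2 ≤ 4 * q * E ^ 2 :=
        mul_le_mul_of_nonneg_left e2 (by linarith)
      have e6 : 0 ≤ 4 * (q : ℤ) * odO q (X * u) ^ 2 := by positivity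
      have e7 : (0 : ℤ) ≤ E ^ 2 := by positivity
      have e8 : 4 * (q : ℤ) * E ^ 2 ≤ 32 * q ^ 2 * E ^ 2 :=
        mul_le_mul_of_nonneg_right (by nlinarith) e7
      have e9 : 4 * E ^ 2 ≤ 32 * q ^ 2 * E ^ 2 :=
        mul_le_mul_of_nonneg_right (by nlinarith) e7
      rw [abs_le]
      constructor
      · nlinarith
      · nlinarith
    have h2 : |(((t + evE q (X * u)) ^ 2 - 4 * q * odO q (X * u) ^ 2 : ℤ) : ℝ)| ≤
        32 * (q : ℝ) ^ 2 * (E : ℝ) ^ 2 := by
      exact_mod_cast h1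
    refine h2.trans ?_
    rw [hE]
    have h3 : (32 * (q : ℝ) ^ 2) ≤ Real.exp (a * g) := by
      calc (32 * (q : ℝ) ^ 2) = Real.exp a := by rw [ha, Real.exp_log (by positivity)]
        _ ≤ _ := Real.exp_le_exp.mpr (le_mul_of_one_le_right ha0.le hg')
    calc 32 * (q : ℝ) ^ 2 * Real.exp (a * g) ^ 2 ≤ Real.exp (a * g) * Real.exp (a * g) ^ 2 :=
          mul_le_mul_of_nonneg_right h3 (by positivity)
      _ = Real.exp (3 * a * g) := by
        rw [sq, ← Real.exp_add, ← Real.exp_add]; congr 1; ring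

end Pool.Agent.Helper86.XE
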