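import Pool.Agent.Helper86.XE.Defs

/-!
# AAE leaf R2 (MP_de89cc_ag): separability modulo the odd primes of the resultant
-/

set_option autoImplicit false

open Polynomial

namespace Pool.Agent.Helper86.XE

open Pool.Agent.Helper84.AA Pool.Agent.Helper19.AAT

/-- As `nice_at` (Helper19/AAT/Big.lean), its step (2); here `q` is a square modulo `l` because of `h1`. -/
theorem sep_at {q g : ℕ} (hq : 1 ≤ q) (hg : 2 ≤ g) {H : ℤ[X]} (hm : H.Monic)
    (hd : H.natDegree = g) {l : ℕ} (hl : l.Prime) (hlg : g < l) {t : ℤ}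
    (h1 : (l : ℤ) ∣ (t + evE q H) ^ 2 - 4 * q * odO q H ^ 2) (h3 : ¬ (l : ℤ) ∣ Delta q H) :
    ((H + C t).map (Int.castRingHom (ZMod l))).Separable := by
  have : Fact l.Prime := ⟨hl⟩
  have hΔ : Delta q H = 2 * q * odO q H * (Gpol q H).resultant (derivative H) := rfl
  rw [hΔ] at h3
  have hnR : ¬ (l : ℤ) ∣ (Gpol q H).resultant (derivative H) := fun h => h3 (Dvd.dvd.mul_left h _)
  set φ := Int.castRingHom (ZMod l) with hφ
  have hφ0 : ∀ z : ℤ, φ z = 0 ↔ (l : ℤ) ∣ z := fun z => by
    rw [hφ, eq_intCast]
    exact ZMod.intCast_zmod_eq_zero_iff_dvd z l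
  have hMon1 : (H - C (evE q H)).Monic := by
    apply hm.sub_of_left
    refine lt_of_le_of_lt degree_C_le ?_
    rw [Polynomial.degree_eq_natDegree hm.ne_zero, hd]
    exact_mod_cast (by omega : 0 < g)
  have hd1 : (H - C (evE q H)).natDegree = g := by rw [natDegree_sub_C, hd]
  have hMonG : (Gpol q H).Monic := by
    unfold Gpol
    apply (hMon1.pow 2).sub_of_left
    refine lt_of_le_of_lt degree_C_le ?_
    rw [Polynomial.degree_eq_natDegree (hMon1.pow 2).ne_zero, hMon1.natDegree_pow, hd1]
    exact_mod_cast (by omega : 0 < 2 * g)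
  have hlead : (derivative H).coeff (g - 1) = g := by
    rw [coeff_derivative, Nat.sub_add_cancel (by omega : 1 ≤ g)]
    have h5 : H.coeff g = 1 := by rw [← hd]; exact hm.coeff_natDegree
    rw [h5, Nat.cast_sub (by omega : 1 ≤ g)]
    ring
  have hnd : (derivative H).natDegree = g - 1 := by
    apply le_antisymm
    · have := natDegree_derivative_le H
      omega
    · apply le_natDegree_of_ne_zero
      rw [hlead]
      exact_mod_cast (by omega : g ≠ 0)
  have hgl : φ (g : ℤ) ≠ 0 := by
    rw [Ne, hφ0]
    intro h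
    have h5 : l ∣ g := by exact_mod_cast h
    have := Nat.le_of_dvd (by omega) h5
    omega
  have hnd' : ((derivative H).map φ).natDegree = (derivative H).natDegree := by
    apply natDegree_map_of_leadingCoeff_ne_zero
    rw [leadingCoeff, hnd, hlead]
    exact hgl
  have hres : ((Gpol q H).map φ).resultant ((derivative H).map φ) =
      φ ((Gpol q H).resultant (derivative H)) := by
    rw [hMonG.natDegree_map φ, hnd']
    exact resultant_map_map _ _ _ _ φ
  have hcop : IsCoprime ((Gpol q H).map φ) ((derivative H).map φ) := by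
    rw [← isUnit_resultant_iff_isCoprime (hMonG.map φ), hres, isUnit_iff_ne_zero, Ne, hφ0]
    exact hnR
  have hφ4 : φ (4 * (q : ℤ) * odO q H ^ 2) = (φ t + φ (evE q H)) ^ 2 := by
    have h5 := (hφ0 _).2 h1
    rw [map_sub, map_pow, map_add] at h5
    exact (sub_eq_zero.1 h5).symm
  have hfac : (Gpol q H).map φ = ((H + C t).map φ) *
      (H.map φ - C (φ (evE q H)) - C (φ t + φ (evE q H))) := by
    unfold Gpol
    rw [Polynomial.map_sub, Polynomial.map_pow, Polynomial.map_sub, Polynomial.map_C,
      Polynomial.map_C, Polynomial.map_add, Polynomial.map_C, hφ4, C_pow, C_add]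
    ring
  rw [hfac] at hcop
  have hcop2 := hcop.of_mul_left_left
  have hder : derivative ((H + C t).map φ) = (derivative H).map φ := by
    rw [derivative_map, derivative_add, derivative_C, add_zero]
  rw [Polynomial.Separable, hder]
  exact hcop2

end Pool.Agent.Helper86.XE
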