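import Pool.Agent.Helper86.XE.AsymB
import Pool.Agent.Helper86.XE.Count
import Pool.Agent.Helper86.XE.Many
import Pool.Agent.Helper86.XE.ConicCount
import Pool.Agent.Helper86.XE.Mert2
import Pool.Agent.Helper86.XE.ResBound
import Pool.Agent.Helper86.XE.Sep
import Pool.Agent.Helper86.XE.Res

/-!
# AAE: the exceptional last coefficients, exponential saving (all inputs proved)
-/

set_option autoImplicit false

open Polynomial

namespace Pool.Agent.Helper86.XE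

open Pool.Agent.Helper84.AA Pool.Agent.Helper19.AAT

theorem count_core : CountCore := fun a M S hS e D _ j Y N hY hN hconic T hT hTY =>
  count_core_of a M S e D j Y N _ hY hN (many a M S hS e D j) hconic T hT hTY

theorem one_bigC {q : ℕ} (hq : 1 ≤ q) :
    ∃ d : ℝ, 0 < d ∧ ∃ G : ℕ, ∀ g ≥ G, ∀ K : ℝ, 1 ≤ K → K ≤ (g : ℝ) ^ (9 / 10 : ℝ) →
      ∀ W : ℕ, g < W → (W : ℝ) ≤ (g : ℝ) ^ K → ∀ u ∈ preSet q g (g - 1), Delta q (X * u) ≠ 0 →
      (101 / 100 : ℝ) ^ g ≤ (Jset q g u).ncard →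
      (({t ∈ Jset q g u | ¬ BigW q W (Real.exp (d * g)) (X * u + C t)}.ncard : ℕ) : ℝ) ≤
        Real.exp (-(d * g / K)) * (Jset q g u).ncard :=
  one_bigC_of count_core (fun q _ hm hd t => res_eq q hm hd t)
    (fun hq hg _ hm hd _ hl hlg _ h1 h3 => sep_at hq hg hm hd hl hlg h1 h3) conic_count
    sum_inv_primes_upper hq (res_bound q hq)

theorem one_bigW {q : ℕ} (hq : 1 ≤ q) :
    ∃ d : ℝ, 0 < d ∧ ∃ G : ℕ, ∀ g ≥ G, ∀ W : ℕ, g < W → Real.log W ≤ (g : ℝ) ^ (9 / 10 : ℝ) →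
      ∀ u ∈ preSet q g (g - 1), Delta q (X * u) ≠ 0 →
      (101 / 100 : ℝ) ^ g ≤ (Jset q g u).ncard →
      (({t ∈ Jset q g u | ¬ BigW q W (Real.exp (d * g)) (X * u + C t)}.ncard : ℕ) : ℝ) ≤
        Real.exp (-(d * g * Real.log g / Real.log W)) * (Jset q g u).ncard :=
  one_bigW_of count_core (fun q _ hm hd t => res_eq q hm hd t)
    (fun hq hg _ hm hd _ hl hlg _ h1 h3 => sep_at hq hg hm hd hl hlg h1 h3) conic_count
    sum_inv_primes_upper hq (res_bound q hq)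

end Pool.Agent.Helper86.XE
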