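import Mathlib

/-!
# AAE, K3 (second part): the numbers
-/

set_option autoImplicit false

namespace Pool.Agent.Helper86.XE

/-- The bound for the part with many excluded primes. -/
theorem num_many {ε L s g : ℝ} {j : ℕ} (hε : 0 < ε) (hL : 1 ≤ L) (hg : 0 < g)
    (hj : ε * g / L ≤ j) (hs : 0 ≤ s) (hLg : L = Real.log g)
    (hbig : 2 * Real.exp 1 * s * L / (ε * g) ≤ Real.exp (-(L / 2))) :
    2 ^ j * (s ^ j / j.factorial) ≤ Real.exp (-(ε * g / 2)) := by
  have hj0 : (0 : ℝ) < j := lt_of_lt_of_le (by positivity) hj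
  have h1 : (j : ℝ) ^ j / j.factorial ≤ Real.exp 1 ^ j := by
    have h := Real.pow_div_factorial_le_exp (j : ℝ) (by positivity) j
    rw [← Real.exp_nat_mul, mul_one]
    exact h
  have h2 : (2 : ℝ) ^ j * (s ^ j / j.factorial) = (2 * s / j) ^ j * ((j : ℝ) ^ j / j.factorial) := by
    rw [div_pow, mul_pow]
    field_simp
  have h3 : 2 * s / j * Real.exp 1 ≤ Real.exp (-(L / 2)) := by
    refine le_trans ?_ hbig
    have h4 : 2 * s / j ≤ 2 * s / (ε * g / L) :=
      div_le_div_of_nonneg_left (by positivity) (by positivity) hj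
    calc 2 * s / j * Real.exp 1 ≤ 2 * s / (ε * g / L) * Real.exp 1 :=
          mul_le_mul_of_nonneg_right h4 (Real.exp_pos _).le
      _ = 2 * Real.exp 1 * s * L / (ε * g) := by
          field_simp
  rw [h2]
  calc (2 * s / j) ^ j * ((j : ℝ) ^ j / j.factorial) ≤ (2 * s / j) ^ j * Real.exp 1 ^ j :=
        mul_le_mul_of_nonneg_left h1 (by positivity)
    _ = (2 * s / j * Real.exp 1) ^ j := (mul_pow _ _ _).symm
    _ ≤ Real.exp (-(L / 2)) ^ j := pow_le_pow_left₀ (by positivity) h3 j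
    _ = Real.exp (j * (-(L / 2))) := (Real.exp_nat_mul _ _).symm
    _ ≤ Real.exp (-(ε * g / 2)) := by
        apply Real.exp_le_exp.2
        have h5 : ε * g ≤ j * L := by
          rwa [div_le_iff₀ (by linarith)] at hj
        linarith

/-- The final bound, all exponents collected. -/
theorem num_final {κ ε δ L g M s n Y : ℝ} {j K : ℕ} (hκ : 0 < κ) (hε : ε = κ / (40 * (K + 4)))
    (hδ : δ = ε / 4) (hL : 1 ≤ L) (hg : 0 < g) (hLg : L = Real.log g)
    (hj : ε * g / L ≤ j) (hj2 : (j : ℝ) ≤ ε * g / L + 1) (hs : 0 ≤ s)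
    (hbig : 2 * Real.exp 1 * s * L / (ε * g) ≤ Real.exp (-(L / 2)))
    (hM : Real.exp (κ * g) ≤ M) (hn0 : 0 ≤ n) (hn : n + 1 ≤ Real.exp ((K + 3) * L))
    (hY : Y = Real.exp (δ * g)) (hKL : (K + 4) * L ≤ κ * g / 40) (h8 : Real.log 8 ≤ δ * g) :
    2 ^ j * (M * (s ^ j / j.factorial) + n ^ j) + (2 * Y * (n + 1) ^ j + 1) *
      (2 * M ^ (9 / 10 : ℝ)) ≤ Real.exp (-(δ * g)) * M := by
  have hK0 : (0 : ℝ) ≤ K := Nat.cast_nonneg K
  have hε0 : 0 < ε := by rw [hε]; positivity
  have hδ0 : 0 < δ := by rw [hδ]; positivity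
  have hM0 : 0 < M := lt_of_lt_of_le (Real.exp_pos _) hM
  have hL0 : 0 < L := by linarith
  have hκε : (K + 4) * ε = κ / 40 := by
    rw [hε]
    field_simp
  have hδg : 0 ≤ δ * g := by positivity
  -- `j L`
  have hjL : (j : ℝ) * L ≤ ε * g + L := by
    calc (j : ℝ) * L ≤ (ε * g / L + 1) * L := mul_le_mul_of_nonneg_right hj2 hL0.le
      _ = ε * g + L := by field_simp
  have hKj : (K + 4) * ((j : ℝ) * L) ≤ κ * g / 20 := by
    calc (K + 4) * ((j : ℝ) * L) ≤ (K + 4) * (ε * g + L) :=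
          mul_le_mul_of_nonneg_left hjL (by linarith)
      _ = ((K + 4) * ε) * g + (K + 4) * L := by ring
      _ ≤ κ / 40 * g + κ * g / 40 := by rw [hκε]; linarith
      _ = κ * g / 20 := by ring
  have hjL0 : 0 ≤ (j : ℝ) * L := by positivity
  -- powers of `n + 1`
  have hpow : (n + 1) ^ j ≤ Real.exp ((K + 3) * ((j : ℝ) * L)) := by
    calc (n + 1) ^ j ≤ Real.exp ((K + 3) * L) ^ j := pow_le_pow_left₀ (by linarith) hn j
      _ = Real.exp (j * ((K + 3) * L)) := (Real.exp_nat_mul _ _).symm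
      _ = Real.exp ((K + 3) * ((j : ℝ) * L)) := by congr 1; ring
  have hpow1 : (n + 1) ^ j ≤ Real.exp (κ * g / 20) := by
    refine hpow.trans (Real.exp_le_exp.2 ?_)
    nlinarith
  have h2j : (2 : ℝ) ^ j * n ^ j ≤ Real.exp (κ * g / 20) := by
    have h1 : (2 : ℝ) ^ j ≤ Real.exp ((j : ℝ) * L) := by
      have h2 : (2 : ℝ) ≤ Real.exp 1 := by
        have := Real.exp_one_gt_d9
        linarith
      calc (2 : ℝ) ^ j ≤ Real.exp 1 ^ j := pow_le_pow_left₀ (by norm_num) h2 j
        _ = Real.exp (j * 1) := (Real.exp_nat_mul _ _).symm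
        _ ≤ Real.exp ((j : ℝ) * L) := by
            apply Real.exp_le_exp.2
            exact mul_le_mul_of_nonneg_left hL (Nat.cast_nonneg _)
    have h3 : n ^ j ≤ (n + 1) ^ j := pow_le_pow_left₀ hn0 (by linarith) j
    calc (2 : ℝ) ^ j * n ^ j ≤ Real.exp ((j : ℝ) * L) * Real.exp ((K + 3) * ((j : ℝ) * L)) :=
          mul_le_mul h1 (h3.trans hpow) (by positivity) (Real.exp_pos _).le
      _ = Real.exp ((K + 4) * ((j : ℝ) * L)) := by
          rw [← Real.exp_add]
          congr 1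
          ring
      _ ≤ _ := Real.exp_le_exp.2 hKj
  -- the first term
  have t1 : 2 ^ j * (M * (s ^ j / j.factorial)) ≤ Real.exp (-(2 * (δ * g))) * M := by
    have h1 := num_many hε0 hL hg hj hs hLg hbig
    have h2 : Real.exp (-(ε * g / 2)) = Real.exp (-(2 * (δ * g))) := by
      congr 1
      rw [hδ]
      ring
    rw [h2] at h1
    calc 2 ^ j * (M * (s ^ j / j.factorial)) = 2 ^ j * (s ^ j / j.factorial) * M := by ring
      _ ≤ _ := mul_le_mul_of_nonneg_right h1 hM0.le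
  -- comparison of the exponents
  have hcomp : 32 * δ ≤ κ / 20 := by
    have h1 : 4 * ε ≤ κ / 40 := by
      rw [← hκε]
      nlinarith
    rw [hδ]
    linarith
  have hcg : 32 * (δ * g) ≤ κ * g / 20 := by
    calc 32 * (δ * g) = 32 * δ * g := by ring
      _ ≤ κ / 20 * g := mul_le_mul_of_nonneg_right hcomp hg.le
      _ = κ * g / 20 := by ring
  have t2 : 2 ^ j * n ^ j ≤ Real.exp (-(2 * (δ * g))) * M := by
    refine h2j.trans ?_
    calc Real.exp (κ * g / 20) ≤ Real.exp (-(2 * (δ * g)) + κ * g) := by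
          apply Real.exp_le_exp.2
          nlinarith
      _ = Real.exp (-(2 * (δ * g))) * Real.exp (κ * g) := Real.exp_add _ _
      _ ≤ _ := mul_le_mul_of_nonneg_left hM (Real.exp_pos _).le
  -- the power `9/10`
  have hM9 : M ^ (9 / 10 : ℝ) ≤ Real.exp (-(κ * g / 10)) * M := by
    have h1 : M ^ (9 / 10 : ℝ) = M ^ (-(1 / 10) : ℝ) * M := by
      rw [← Real.rpow_add_one hM0.ne']
      norm_num
    have h2 : M ^ (-(1 / 10) : ℝ) ≤ Real.exp (-(κ * g / 10)) := by
      have h3 : M ^ (-(1 / 10) : ℝ) ≤ Real.exp (κ * g) ^ (-(1 / 10) : ℝ) :=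
        Real.rpow_le_rpow_of_nonpos (Real.exp_pos _) hM (by norm_num)
      refine h3.trans (le_of_eq ?_)
      rw [← Real.exp_mul]
      congr 1
      ring
    rw [h1]
    exact mul_le_mul_of_nonneg_right h2 hM0.le
  have t3 : (2 * Y * (n + 1) ^ j + 1) * (2 * M ^ (9 / 10 : ℝ)) ≤
      6 * (Real.exp (-(2 * (δ * g))) * M) := by
    have h1 : 1 ≤ Y * Real.exp (κ * g / 20) := by
      rw [hY, ← Real.exp_add]
      apply Real.one_le_exp
      positivity
    have hY0 : 0 < Y := by rw [hY]; exact Real.exp_pos _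
    have h2 : 2 * Y * (n + 1) ^ j + 1 ≤ 3 * (Y * Real.exp (κ * g / 20)) := by
      have := mul_le_mul_of_nonneg_left hpow1 hY0.le
      linarith
    calc (2 * Y * (n + 1) ^ j + 1) * (2 * M ^ (9 / 10 : ℝ)) ≤
        (3 * (Y * Real.exp (κ * g / 20))) * (2 * (Real.exp (-(κ * g / 10)) * M)) :=
          mul_le_mul h2 (mul_le_mul_of_nonneg_left hM9 (by norm_num)) (by positivity)
            (by positivity)
      _ = 6 * ((Y * Real.exp (κ * g / 20) * Real.exp (-(κ * g / 10))) * M) := by ring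
      _ = 6 * (Real.exp (δ * g + κ * g / 20 + -(κ * g / 10)) * M) := by
          rw [hY, Real.exp_add, Real.exp_add]
      _ ≤ 6 * (Real.exp (-(2 * (δ * g))) * M) := by
          refine mul_le_mul_of_nonneg_left (mul_le_mul_of_nonneg_right
            (Real.exp_le_exp.2 ?_) hM0.le) (by norm_num)
          linarith
  -- the sum
  have h9 : 8 * Real.exp (-(2 * (δ * g))) ≤ Real.exp (-(δ * g)) := by
    have h1 : (8 : ℝ) ≤ Real.exp (δ * g) := by
      rwa [← Real.log_le_iff_le_exp (by norm_num)]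
    calc 8 * Real.exp (-(2 * (δ * g))) ≤ Real.exp (δ * g) * Real.exp (-(2 * (δ * g))) :=
          mul_le_mul_of_nonneg_right h1 (Real.exp_pos _).le
      _ = Real.exp (-(δ * g)) := by
          rw [← Real.exp_add]
          congr 1
          ring
  calc 2 ^ j * (M * (s ^ j / j.factorial) + n ^ j) + (2 * Y * (n + 1) ^ j + 1) *
        (2 * M ^ (9 / 10 : ℝ))
      = 2 ^ j * (M * (s ^ j / j.factorial)) + 2 ^ j * n ^ j + (2 * Y * (n + 1) ^ j + 1) *
        (2 * M ^ (9 / 10 : ℝ)) := by ring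
    _ ≤ Real.exp (-(2 * (δ * g))) * M + Real.exp (-(2 * (δ * g))) * M +
        6 * (Real.exp (-(2 * (δ * g))) * M) := add_le_add (add_le_add t1 t2) t3
    _ = 8 * Real.exp (-(2 * (δ * g))) * M := by ring
    _ ≤ Real.exp (-(δ * g)) * M := mul_le_mul_of_nonneg_right h9 hM0.le

end Pool.Agent.Helper86.XE
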