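import Pool.Agent.Helper86.XE.Core
import Pool.Agent.Helper86.XE.Num

/-!
# AAE, K3 (third part): the asymptotics
-/

set_option autoImplicit false

open Polynomial

namespace Pool.Agent.Helper86.XE

open Pool.Agent.Helper84.AA Pool.Agent.Helper19.AAT

theorem one_big_of (hCC : CountCore) (hRE : ResEq) (hSA : SepAt)
    (hconic : ∀ C₀ : ℝ, ∃ G : ℕ, ConicCount C₀ G) {q : ℕ} (hq : 1 ≤ q)
    (hRB : ∃ c : ℝ, 0 < c ∧ ResBound q c) (K : ℕ) :
    ∃ δ : ℝ, 0 < δ ∧ ∃ G : ℕ, ∀ g ≥ G, ∀ W : ℕ, g < W →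
    W ≤ g ^ K → ∀ u ∈ preSet q g (g - 1), Delta q (X * u) ≠ 0 →
      (101 / 100 : ℝ) ^ g ≤ (Jset q g u).ncard →
      (({t ∈ Jset q g u | ¬ BigW q W (Real.exp (δ * g)) (X * u + C t)}.ncard : ℕ) : ℝ) ≤
        Real.exp (-(δ * g)) * (Jset q g u).ncard := by
  obtain ⟨c, hc, hRB⟩ := hRB
  obtain ⟨Gc, hGc⟩ := hconic (Real.log (8 * q) + 3 * c)
  obtain ⟨c₁', hc₁'⟩ := delta_bound q hq
  obtain ⟨c₁, hc₁⟩ : ∃ c₁, c₁ = |c₁'| := ⟨_, rfl⟩
  have hc₁0 : 0 ≤ c₁ := hc₁ ▸ abs_nonneg _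
  obtain ⟨κ, hκd⟩ : ∃ κ, κ = Real.log (101 / 100) := ⟨_, rfl⟩
  have hκ : 0 < κ := by
    rw [hκd]
    exact Real.log_pos (by norm_num)
  obtain ⟨ε, hε⟩ : ∃ ε, ε = κ / (40 * (K + 4)) := ⟨_, rfl⟩
  have hε0 : 0 < ε := by rw [hε]; positivity
  obtain ⟨δ, hδ⟩ : ∃ δ, δ = ε / 4 := ⟨_, rfl⟩
  have hδ0 : 0 < δ := by rw [hδ]; positivity
  obtain ⟨c₂, hc₂⟩ : ∃ c₂ : ℝ, c₂ = 1 + c₁ + (K + 2) := ⟨_, rfl⟩
  have hc₂0 : 0 < c₂ := by rw [hc₂]; positivity
  -- eventual inequalities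
  have hlogt : Filter.Tendsto (fun n : ℕ => Real.log (n : ℝ)) Filter.atTop Filter.atTop :=
    Real.tendsto_log_atTop.comp tendsto_natCast_atTop_atTop
  have hlog2 : Filter.Tendsto (fun n : ℕ => Real.log (n : ℝ) / 2) Filter.atTop Filter.atTop :=
    hlogt.atTop_div_const (by norm_num)
  have hexp : Filter.Tendsto (fun n : ℕ => (Real.log (n : ℝ) / 2) ^ 2 *
      Real.exp (-(Real.log (n : ℝ) / 2))) Filter.atTop (nhds 0) :=
    (Real.tendsto_pow_mul_exp_neg_atTop_nhds_zero 2).comp hlog2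
  obtain ⟨G₁, hG₁⟩ := Filter.eventually_atTop.1 (hexp.eventually (gt_mem_nhds
    (show (0 : ℝ) < ε / (8 * Real.exp 1 * c₂) by positivity)))
  obtain ⟨G₂, hG₂⟩ := Filter.eventually_atTop.1
    (((Real.isLittleO_log_id_atTop.comp_tendsto tendsto_natCast_atTop_atTop).def
      (show (0 : ℝ) < κ / (40 * (K + 4)) by positivity)))
  obtain ⟨G₃, hG₃⟩ := exists_nat_ge (Real.log 8 / δ)
  obtain ⟨G₄, hG₄⟩ := exists_nat_ge (2 + 2 * c₁)
  refine ⟨δ, hδ0, max (max (max Gc G₁) (max G₂ G₃)) (max G₄ 3), fun g hg W hgW hWK u hu hD hM => ?_⟩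
  have g1 : Gc ≤ g := le_trans (by simp) hg
  have g2 : G₁ ≤ g := le_trans (by simp) hg
  have g3 : G₂ ≤ g := le_trans (by simp) hg
  have g4 : G₃ ≤ g := le_trans (by simp) hg
  have g5 : G₄ ≤ g := le_trans (by simp) hg
  have g6 : 3 ≤ g := le_trans (by simp) hg
  have hgR : (3 : ℝ) ≤ g := by exact_mod_cast g6
  have hg0 : (0 : ℝ) < g := by linarith
  have hg1 : (1 : ℝ) ≤ g := by linarith
  obtain ⟨L, hL⟩ : ∃ L, L = Real.log g := ⟨_, rfl⟩
  have hL1 : 1 ≤ L := by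
    rw [hL, Real.le_log_iff_exp_le hg0]
    have := Real.exp_one_lt_d9
    linarith
  have hexpL : Real.exp L = g := by rw [hL, Real.exp_log hg0]
  obtain ⟨j, hj⟩ : ∃ j, j = ⌈ε * g / L⌉₊ := ⟨_, rfl⟩
  have hj1 : ε * g / L ≤ j := by rw [hj]; exact Nat.le_ceil _
  have hj2 : (j : ℝ) ≤ ε * g / L + 1 := by
    rw [hj]
    exact (Nat.ceil_lt_add_one (by positivity)).le
  have hY1 : 1 ≤ Real.exp (δ * g) := Real.one_le_exp (by positivity)
  have hcore := one_core hCC hRE hSA hq g6 hgW hRB hGc g1 hc.le le_rfl j hY1 u hu hD hM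
  refine hcore.trans ?_
  -- the size of `Delta`
  obtain ⟨Δ, hΔ⟩ : ∃ Δ : ℤ, Δ = Delta q (X * u) := ⟨_, rfl⟩
  rw [← hΔ] at hD ⊢
  have hlogD : Real.log |(Δ : ℝ)| ≤ c₁ * (g : ℝ) ^ 2 := by
    obtain ⟨a, M, hJ⟩ := Jset_Ico q g u
    have hMpos : 0 < M := by
      rcases Nat.eq_zero_or_pos M with h | h
      · exfalso
        rw [hJ, h] at hM
        have h1 : (Set.Ico a (a + ((0 : ℕ) : ℤ)) : Set ℤ) = ∅ := by simp
        rw [h1, Set.ncard_empty] at hM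
        have h2 : (1 : ℝ) ≤ (101 / 100 : ℝ) ^ g := one_le_pow₀ (by norm_num)
        push_cast at hM
        linarith
      · exact h
    have ha : a ∈ Jset q g u := by
      rw [hJ]; exact ⟨le_refl _, by
        have : (0 : ℤ) < M := by exact_mod_cast hMpos
        linarith⟩
    have h1 := hc₁' g (by omega) (X * u + C a) ha
    have h2 : (X * u + C a : ℤ[X]).coeff 0 = a := by simp
    rw [h2, add_sub_cancel_right, ← hΔ] at h1
    have h3 : (0 : ℝ) < |(Δ : ℝ)| := by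
      rw [abs_pos]
      exact_mod_cast hD
    have h4 := Real.log_le_log h3 h1
    rw [Real.log_exp] at h4
    refine h4.trans (mul_le_mul_of_nonneg_right ?_ (by positivity))
    rw [hc₁]
    exact le_abs_self _
  have hz3 : 3 ≤ g ^ (K + 2) := g6.trans (Nat.le_self_pow (by omega) g)
  have hWz : W ≤ g ^ (K + 2) := hWK.trans (Nat.pow_le_pow_right (by omega) (by omega))
  have hgK2 : (g : ℝ) ^ 2 ≤ (g : ℝ) ^ (K + 2) := pow_le_pow_right₀ hg1 (by omega)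
  have hgKK : (g : ℝ) ^ K ≤ (g : ℝ) ^ (K + 2) := pow_le_pow_right₀ hg1 (by omega)
  have hgK1 : (1 : ℝ) ≤ (g : ℝ) ^ (K + 2) := one_le_pow₀ hg1
  have hgKpos : (0 : ℝ) < (g : ℝ) ^ (K + 2) := by positivity
  -- the sum of the inverses
  have hs : ∑ l ∈ SS W Δ, (1 : ℝ) / l ≤ c₂ * L := by
    refine (SS_sum hD hz3 hWz).trans ?_
    push_cast
    have h1 : Real.log ((g : ℝ) ^ (K + 2)) = (K + 2) * L := by
      rw [Real.log_pow, hL]
      push_cast
      ring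
    have h2 : Real.log |(Δ : ℝ)| / (g : ℝ) ^ (K + 2) ≤ c₁ := by
      rw [div_le_iff₀ hgKpos]
      exact hlogD.trans (mul_le_mul_of_nonneg_left hgK2 hc₁0)
    rw [h1]
    calc 1 + (K + 2) * L + Real.log |(Δ : ℝ)| / (g : ℝ) ^ (K + 2)
        ≤ 1 + (K + 2) * L + c₁ := add_le_add le_rfl h2
      _ ≤ c₂ * L := by
          have h3 : (1 + c₁) * 1 ≤ (1 + c₁) * L := mul_le_mul_of_nonneg_left hL1 (by linarith)
          rw [hc₂]
          linarith
  have hs0 : 0 ≤ ∑ l ∈ SS W Δ, (1 : ℝ) / l := Finset.sum_nonneg fun _ _ => by positivity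
  have hbig : 2 * Real.exp 1 * (∑ l ∈ SS W Δ, (1 : ℝ) / l) * L / (ε * g) ≤
      Real.exp (-(L / 2)) := by
    have h1 := hG₁ g g2
    rw [← hL, lt_div_iff₀ (by positivity)] at h1
    have h2 : 2 * Real.exp 1 * (c₂ * L) * L * Real.exp (-(L / 2)) ≤ ε := by
      have h3 : 2 * Real.exp 1 * (c₂ * L) * L * Real.exp (-(L / 2)) =
          (L / 2) ^ 2 * Real.exp (-(L / 2)) * (8 * Real.exp 1 * c₂) := by ring
      rw [h3]
      exact h1.le
    rw [div_le_iff₀ (by positivity)]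
    calc 2 * Real.exp 1 * (∑ l ∈ SS W Δ, (1 : ℝ) / l) * L ≤ 2 * Real.exp 1 * (c₂ * L) * L := by
          gcongr
      _ = (2 * Real.exp 1 * (c₂ * L) * L * Real.exp (-(L / 2))) * Real.exp (L / 2) := by
          rw [mul_assoc _ (Real.exp (-(L / 2))), ← Real.exp_add]
          norm_num
      _ ≤ ε * Real.exp (L / 2) := mul_le_mul_of_nonneg_right h2 (Real.exp_pos _).le
      _ = Real.exp (-(L / 2)) * (ε * g) := by
          rw [← hexpL]
          have : Real.exp (L / 2) = Real.exp (-(L / 2)) * Real.exp L := by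
            rw [← Real.exp_add]
            congr 1
            ring
          rw [this]
          ring
  -- the number of excluded primes
  have hn : ((SS W Δ).card : ℝ) + 1 ≤ Real.exp ((K + 3) * L) := by
    have h1 := SS_card (W := W) hD
    have h2 : (W : ℝ) ≤ (g : ℝ) ^ K := by exact_mod_cast hWK
    have h3 : Real.exp ((K + 3) * L) = (g : ℝ) ^ (K + 2) * g := by
      have h4 : ((K : ℝ) + 3) * L = ((K + 3 : ℕ) : ℝ) * L := by push_cast; ring
      rw [h4, Real.exp_nat_mul, hexpL, ← pow_succ]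
    have h5 : 2 + 2 * c₁ ≤ (g : ℝ) := hG₄.trans (by exact_mod_cast g5)
    rw [h3]
    calc ((SS W Δ).card : ℝ) + 1 ≤ (g : ℝ) ^ K + 2 * (c₁ * (g : ℝ) ^ 2) + 1 := by linarith
      _ ≤ (g : ℝ) ^ (K + 2) + 2 * (c₁ * (g : ℝ) ^ (K + 2)) + (g : ℝ) ^ (K + 2) := by
          have := mul_le_mul_of_nonneg_left hgK2 hc₁0
          linarith
      _ = (g : ℝ) ^ (K + 2) * (2 + 2 * c₁) := by ring
      _ ≤ (g : ℝ) ^ (K + 2) * g := mul_le_mul_of_nonneg_left h5 hgKpos.le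
  have hMe : Real.exp (κ * g) ≤ ((Jset q g u).ncard : ℝ) := by
    refine le_trans (le_of_eq ?_) hM
    rw [hκd, mul_comm, Real.exp_nat_mul, Real.exp_log (by norm_num)]
  have hKL : ((K : ℝ) + 4) * L ≤ κ * g / 40 := by
    have h1 := hG₂ g g3
    simp only [Function.comp, id, Real.norm_eq_abs] at h1
    rw [← hL, abs_of_nonneg (by linarith : (0 : ℝ) ≤ L), abs_of_pos hg0] at h1
    calc ((K : ℝ) + 4) * L ≤ (K + 4) * (κ / (40 * (K + 4)) * g) :=
          mul_le_mul_of_nonneg_left h1 (by positivity)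
      _ = κ * g / 40 := by field_simp
  have h8 : Real.log 8 ≤ δ * g := by
    have h1 : Real.log 8 / δ ≤ (g : ℝ) := hG₃.trans (by exact_mod_cast g4)
    rw [div_le_iff₀ hδ0] at h1
    linarith
  exact num_final hκ hε hδ hL1 hg0 hL hj1 hj2 hs0 hbig hMe (Nat.cast_nonneg _) hn rfl hKL h8

end Pool.Agent.Helper86.XE
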