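import Pool.Agent.Helper86.XE.Defs
import Pool.Agent.Helper84.AA.DeltaBd

/-!
# AAE, K3 (first part): one prefix

All the inputs (`count_core`, `conic_count`, `res_eq`, `sep_at`, `res_bound`) are hypotheses here.
-/

set_option autoImplicit false

open Polynomial

namespace Pool.Agent.Helper86.XE

open Pool.Agent.Helper84.AA Pool.Agent.Helper19.AAT

/-- The statement of `count_core`. -/
def CountCore : Prop := ∀ (a : ℤ) (M : ℕ) (S : Finset ℕ), (∀ l ∈ S, l.Prime) → ∀ (e D : ℤ), D ≠ 0 →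
    ∀ (j : ℕ) (Y N : ℝ), 1 ≤ Y → 0 ≤ N →
    (∀ s : ℤ, s ≠ 0 → (s = 1 ∨ ∃ t ∈ Finset.Ico a (a + (M : ℤ)), |s| ≤ |(t + e) ^ 2 - D|) →
      ∀ A : Finset ℤ, A ⊆ Finset.Ico (a + e) (a + e + M) → (∀ x ∈ A, ∃ y : ℤ, x ^ 2 - D = s * y ^ 2) →
      (A.card : ℝ) ≤ N) →
    ∀ T : Finset ℤ, T ⊆ Finset.Ico a (a + M) →
    (∀ t ∈ T, ∀ B : Finset ℕ, (∀ l ∈ B, l ∉ S ∧ l.Prime ∧ (l : ℤ) ∣ (t + e) ^ 2 - D ∧
      Odd (padicValInt l ((t + e) ^ 2 - D))) → ∏ l ∈ B, (l : ℝ) < Y) →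
    (T.card : ℝ) ≤ 2 ^ j * (M * ((∑ l ∈ S, (1 : ℝ) / l) ^ j / j.factorial) + (S.card : ℝ) ^ j) +
      (2 * Y * ((S.card : ℝ) + 1) ^ j + 1) * N

/-- The statement of `conic_count`. -/
def ConicCount (C : ℝ) (G : ℕ) : Prop := ∀ g ≥ G, ∀ M : ℕ, (101 / 100 : ℝ) ^ g ≤ M →
    ∀ a D s : ℤ, D ≠ 0 → s ≠ 0 → Real.log |((2 * s * D : ℤ) : ℝ)| ≤ C * (g : ℝ) ^ 2 →
    ∀ A : Finset ℤ, A ⊆ Finset.Ico a (a + M) → (∀ x ∈ A, ∃ y : ℤ, x ^ 2 - D = s * y ^ 2) →
    (A.card : ℝ) ≤ 2 * (M : ℝ) ^ (9 / 10 : ℝ)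

/-- The statement of `res_eq`. -/
def ResEq : Prop := ∀ (q : ℕ) {H : ℤ[X]}, H.Monic → 1 ≤ H.natDegree → ∀ t : ℤ,
    (H + C t).resultant (X ^ 2 - C (4 * (q : ℤ))) =
      (t + evE q H) ^ 2 - 4 * q * odO q H ^ 2

/-- The statement of `sep_at`. -/
def SepAt : Prop := ∀ {q g : ℕ}, 1 ≤ q → 2 ≤ g → ∀ {H : ℤ[X]}, H.Monic →
    H.natDegree = g → ∀ {l : ℕ}, l.Prime → g < l → ∀ {t : ℤ},
    (l : ℤ) ∣ (t + evE q H) ^ 2 - 4 * q * odO q H ^ 2 → ¬ (l : ℤ) ∣ Delta q H →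
    ((H + C t).map (Int.castRingHom (ZMod l))).Separable

/-- The statement of `res_bound` for one `q`, `c`. -/
def ResBound (q : ℕ) (c : ℝ) : Prop := ∀ g : ℕ, 1 ≤ g → ∀ u : ℤ[X], ∀ t : ℤ,
    IsTrace q g (X * u + C t) → |((odO q (X * u) : ℤ) : ℝ)| ≤ Real.exp (c * g) ∧
      |(((t + evE q (X * u)) ^ 2 - 4 * q * odO q (X * u) ^ 2 : ℤ) : ℝ)| ≤ Real.exp (c * g)

theorem card_primeFactors_le (n : ℕ) (hn : n ≠ 0) :
    (n.primeFactors.card : ℝ) ≤ 2 * Real.log n := by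
  have h1 : 2 ^ n.primeFactors.card ≤ ∏ p ∈ n.primeFactors, p := by
    rw [← Finset.prod_const]
    exact Finset.prod_le_prod' fun p hp => (Nat.prime_of_mem_primeFactors hp).two_le
  have h2 : ∏ p ∈ n.primeFactors, p ≤ n := Nat.le_of_dvd (by omega) (Nat.prod_primeFactors_dvd n)
  have h3 : ((2 : ℝ)) ^ n.primeFactors.card ≤ n := by exact_mod_cast h1.trans h2
  have h4 := Real.log_le_log (by positivity) h3
  rw [Real.log_pow] at h4
  have h5 : (1 / 2 : ℝ) ≤ Real.log 2 := by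
    have := Real.log_two_gt_d9
    linarith
  have h6 : (0 : ℝ) ≤ n.primeFactors.card := Nat.cast_nonneg _
  nlinarith

theorem sum_Icc_inv_le (n : ℕ) : ∑ l ∈ Finset.Icc 1 n, (1 : ℝ) / l ≤ 1 + Real.log n := by
  have h := harmonic_le_one_add_log n
  rw [harmonic_eq_sum_Icc] at h
  push_cast at h
  simpa only [one_div] using h

/-- The excluded primes. -/
noncomputable def SS (W : ℕ) (D : ℤ) : Finset ℕ :=
  (Finset.Icc 1 W).filter Nat.Prime ∪ D.natAbs.primeFactors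

theorem SS_prime {W : ℕ} {D : ℤ} {l : ℕ} (h : l ∈ SS W D) : l.Prime := by
  rw [SS, Finset.mem_union, Finset.mem_filter] at h
  rcases h with h | h
  · exact h.2
  · exact Nat.prime_of_mem_primeFactors h

theorem not_mem_SS {W : ℕ} {D : ℤ} (hD : D ≠ 0) {l : ℕ} (hl : l.Prime) (h : l ∉ SS W D) :
    W < l ∧ ¬ (l : ℤ) ∣ D := by
  rw [SS, Finset.mem_union, Finset.mem_filter, Finset.mem_Icc, not_or] at h
  obtain ⟨h1, h2⟩ := h
  constructor
  · by_contra hc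
    exact h1 ⟨⟨hl.one_le, by omega⟩, hl⟩
  · intro hd
    apply h2
    rw [Nat.mem_primeFactors]
    refine ⟨hl, Int.natCast_dvd.1 hd, Int.natAbs_ne_zero.2 hD⟩

theorem SS_card {W : ℕ} {D : ℤ} (hD : D ≠ 0) :
    ((SS W D).card : ℝ) ≤ W + 2 * Real.log |(D : ℝ)| := by
  have h1 : (SS W D).card ≤ W + D.natAbs.primeFactors.card := by
    refine (Finset.card_union_le _ _).trans (Nat.add_le_add_right ?_ _)
    refine (Finset.card_filter_le _ _).trans ?_
    simp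
  have h2 := card_primeFactors_le D.natAbs (Int.natAbs_ne_zero.2 hD)
  have h3 : ((D.natAbs : ℕ) : ℝ) = |(D : ℝ)| := by
    rw [Nat.cast_natAbs, Int.cast_abs]
  rw [h3] at h2
  have h4 : ((SS W D).card : ℝ) ≤ W + (D.natAbs.primeFactors.card : ℝ) := by exact_mod_cast h1
  linarith

theorem SS_sum {W z : ℕ} {D : ℤ} (hD : D ≠ 0) (hz : 3 ≤ z) (hWz : W ≤ z) :
    ∑ l ∈ SS W D, (1 : ℝ) / l ≤ 1 + Real.log z + Real.log |(D : ℝ)| / z := by
  classical
  have h1 := Finset.sum_filter_add_sum_filter_not (SS W D) (fun l => l ≤ z) (fun l => (1 : ℝ) / l)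
  have h2 : ∑ l ∈ (SS W D).filter (fun l => l ≤ z), (1 : ℝ) / l ≤ 1 + Real.log z := by
    refine le_trans ?_ (sum_Icc_inv_le z)
    refine Finset.sum_le_sum_of_subset_of_nonneg ?_ fun _ _ _ => by positivity
    intro l hl
    rw [Finset.mem_filter] at hl
    exact Finset.mem_Icc.2 ⟨(SS_prime hl.1).one_le, hl.2⟩
  have h3 : ∑ l ∈ (SS W D).filter (fun l => ¬ l ≤ z), (1 : ℝ) / l ≤ Real.log |(D : ℝ)| / z := by
    refine small_sum hD hz _ ?_
    intro l hl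
    rw [Finset.mem_filter] at hl
    refine ⟨SS_prime hl.1, by omega, ?_⟩
    have h4 := hl.1
    rw [SS, Finset.mem_union, Finset.mem_filter, Finset.mem_Icc] at h4
    rcases h4 with h4 | h4
    · omega
    · exact Int.natCast_dvd.2 (Nat.dvd_of_mem_primeFactors h4)
  linarith

theorem one_core (hCC : CountCore) (hRE : ResEq) (hSA : SepAt) {q g W : ℕ} (hq : 1 ≤ q) (hg : 3 ≤ g)
    (hgW : g < W) {c C₀ : ℝ} {G : ℕ} (hRB : ResBound q c) (hconic : ConicCount C₀ G) (hgG : G ≤ g)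
    (hc : 0 ≤ c) (hC₀ : Real.log (8 * q) + 3 * c ≤ C₀) (j : ℕ) {Y : ℝ} (hY : 1 ≤ Y)
    (u : ℤ[X]) (hu : u ∈ preSet q g (g - 1)) (hD : Delta q (X * u) ≠ 0)
    (hM : (101 / 100 : ℝ) ^ g ≤ (Jset q g u).ncard) :
    (({t ∈ Jset q g u | ¬ BigW q W Y (X * u + C t)}.ncard : ℕ) : ℝ) ≤
      2 ^ j * ((Jset q g u).ncard * ((∑ l ∈ SS W (Delta q (X * u)), (1 : ℝ) / l) ^ j / j.factorial) +
        ((SS W (Delta q (X * u))).card : ℝ) ^ j) +
      (2 * Y * (((SS W (Delta q (X * u))).card : ℝ) + 1) ^ j + 1) *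
        (2 * ((Jset q g u).ncard : ℝ) ^ (9 / 10 : ℝ)) := by
  classical
  have hgR : (3 : ℝ) ≤ g := by exact_mod_cast hg
  obtain ⟨a, M, hJ⟩ := Jset_Ico q g u
  have hJc : (Jset q g u).ncard = M := by
    rw [hJ]
    have : (Set.Ico a (a + M) : Set ℤ) = ((Finset.Ico a (a + (M : ℤ)) : Finset ℤ) : Set ℤ) := by
      simp
    rw [this, Set.ncard_coe_finset]
    simp
  rw [hJc] at hM ⊢
  obtain ⟨hum, hud⟩ := pre_monic (q := q) (g := g) (n := g - 1) (by omega) hu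
  have hHm : (X * u).Monic := monic_X.mul hum
  have hHd : (X * u).natDegree = g := by
    rw [natDegree_X_mul hum.ne_zero, hud]; omega
  have hpow1 : (1 : ℝ) ≤ (101 / 100 : ℝ) ^ g := one_le_pow₀ (by norm_num)
  have hM1 : (1 : ℝ) ≤ M := le_trans hpow1 hM
  have hMpos : 0 < M := by
    have : (0 : ℝ) < M := by linarith
    exact_mod_cast this
  have haJ : a ∈ Jset q g u := by
    rw [hJ]; exact ⟨le_refl _, by
      have : (0 : ℤ) < M := by exact_mod_cast hMpos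
      linarith⟩
  have hJt : ∀ t ∈ Finset.Ico a (a + (M : ℤ)), IsTrace q g (X * u + C t) := by
    intro t ht
    have : t ∈ Jset q g u := by
      rw [hJ]
      exact Finset.mem_Ico.1 ht
    exact this
  have hodO : odO q (X * u) ≠ 0 := by
    intro h
    apply hD
    rw [Delta, h]
    ring
  have hq0 : (q : ℤ) ≠ 0 := by omega
  set e : ℤ := evE q (X * u) with he
  set D : ℤ := 4 * q * odO q (X * u) ^ 2 with hDd
  have hD0 : D ≠ 0 := by
    rw [hDd]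
    positivity
  have hobd := (hRB g (by omega) u a haJ).1
  have hcg : 0 ≤ c * g := mul_nonneg hc (by linarith)
  -- the sizes
  have hDabs : |((2 * D : ℤ) : ℝ)| ≤ (8 * q) * Real.exp (c * g) ^ 2 := by
    rw [hDd]
    push_cast
    have h1 : (2 * (4 * (q : ℝ) * (odO q (X * u) : ℝ) ^ 2)) =
        (8 * q) * (|((odO q (X * u) : ℤ) : ℝ)| ^ 2) := by
      rw [sq_abs]; ring
    rw [h1, abs_of_nonneg (by positivity)]
    exact mul_le_mul_of_nonneg_left (pow_le_pow_left₀ (abs_nonneg _) hobd 2) (by positivity)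
  have hq1 : (1 : ℝ) ≤ q := by exact_mod_cast hq
  have hlog : ∀ s : ℤ, s ≠ 0 → |(s : ℝ)| ≤ Real.exp (c * g) →
      Real.log |((2 * s * D : ℤ) : ℝ)| ≤ C₀ * (g : ℝ) ^ 2 := by
    intro s hs hsb
    have h1 : |((2 * s * D : ℤ) : ℝ)| ≤ Real.exp (Real.log (8 * q) + 3 * (c * g)) := by
      have h2 : |((2 * s * D : ℤ) : ℝ)| = |(s : ℝ)| * |((2 * D : ℤ) : ℝ)| := by
        rw [← abs_mul]
        congr 1
        push_cast
        ring
      rw [h2]
      calc |(s : ℝ)| * |((2 * D : ℤ) : ℝ)| ≤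
          Real.exp (c * g) * ((8 * q) * Real.exp (c * g) ^ 2) :=
            mul_le_mul hsb hDabs (abs_nonneg _) (Real.exp_pos _).le
        _ = Real.exp (Real.log (8 * q) + 3 * (c * g)) := by
            rw [Real.exp_add, Real.exp_log (by positivity)]
            have : Real.exp (3 * (c * g)) = Real.exp (c * g) ^ 3 := by
              rw [← Real.exp_nat_mul]
              norm_num
            rw [this]
            ring
    have h3 : (0 : ℝ) < |((2 * s * D : ℤ) : ℝ)| := by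
      rw [abs_pos]
      exact_mod_cast mul_ne_zero (mul_ne_zero two_ne_zero hs) hD0
    have h4 := Real.log_le_log h3 h1
    rw [Real.log_exp] at h4
    have h5 : 0 ≤ Real.log (8 * q) := Real.log_nonneg (by linarith)
    have h6 : (1 : ℝ) ≤ (g : ℝ) ^ 2 := one_le_pow₀ (by linarith)
    have h7 : (g : ℝ) ≤ (g : ℝ) ^ 2 := by nlinarith
    calc Real.log |((2 * s * D : ℤ) : ℝ)| ≤ Real.log (8 * q) + 3 * (c * g) := h4
      _ ≤ Real.log (8 * q) * (g : ℝ) ^ 2 + 3 * (c * (g : ℝ) ^ 2) := by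
          refine add_le_add (le_mul_of_one_le_right h5 h6) ?_
          refine mul_le_mul_of_nonneg_left (mul_le_mul_of_nonneg_left h7 hc) (by norm_num)
      _ = (Real.log (8 * q) + 3 * c) * (g : ℝ) ^ 2 := by ring
      _ ≤ C₀ * (g : ℝ) ^ 2 := mul_le_mul_of_nonneg_right hC₀ (by positivity)
  set T : Finset ℤ := (Finset.Ico a (a + (M : ℤ))).filter
    fun t => ¬ BigW q W Y (X * u + C t) with hT
  have hTc : {t ∈ Jset q g u | ¬ BigW q W Y (X * u + C t)}.ncard = T.card := by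
    rw [← Set.ncard_coe_finset]
    congr 1
    ext t
    rw [hJ, hT]
    simp
  rw [hTc]
  refine hCC a M (SS W (Delta q (X * u))) (fun l hl => SS_prime hl) e D hD0 j Y _ hY
    (by positivity) ?_ T (Finset.filter_subset _ _) ?_
  · intro s hs hs1 A hA hAy
    refine hconic g hgG M hM (a + e) D s hD0 hs (hlog s hs ?_) A hA hAy
    rcases hs1 with hs1 | ⟨t, ht, hst⟩
    · rw [hs1]
      simpa using Real.one_le_exp hcg
    · have h1 := (hRB g (by omega) u t (hJt t ht)).2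
      refine le_trans ?_ h1
      rw [← he, ← hDd]
      exact_mod_cast hst
  · intro t ht B hB
    rw [hT, Finset.mem_filter] at ht
    by_contra hcon
    apply ht.2
    refine ⟨B, fun l hl => ?_, not_lt.1 hcon⟩
    obtain ⟨b1, b2, b3, b4⟩ := hB l hl
    obtain ⟨b5, b6⟩ := not_mem_SS hD b2 b1
    refine ⟨b5, b2, ?_, ?_⟩
    · exact hSA hq (by omega) hHm hHd b2 (hgW.trans b5) b3 b6
    · rw [hRE q hHm (by omega) t]
      exact b4

end Pool.Agent.Helper86.XE
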