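import Mathlib

/-!
# AAE (MP_de89cc), E1: elementary symmetric sums are at most `s ^ j / j!`
-/

set_option autoImplicit false

namespace Pool.Agent.Helper86.XE

theorem e1_step {s x : ℝ} (hs : 0 ≤ s) (hx : 0 ≤ x) (j : ℕ) :
    s ^ (j + 1) / (j + 1).factorial + x * (s ^ j / j.factorial) ≤ (s + x) ^ (j + 1) / (j + 1).factorial := by
  have h0 : ((j + 1).factorial : ℝ) = (j + 1) * j.factorial := by
    rw [Nat.factorial_succ]
    push_cast
    ring
  have hj : (0 : ℝ) < j.factorial := by exact_mod_cast j.factorial_pos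
  have hj1 : (0 : ℝ) < (j : ℝ) + 1 := by positivity
  have h1 : s ^ (j + 1) + (j + 1) * x * s ^ j ≤ (s + x) ^ (j + 1) := by
    induction j with
    | zero => simp
    | succ j ih =>
      have ih' := ih (by rw [Nat.factorial_succ]; push_cast; ring)
        (by exact_mod_cast j.factorial_pos) (by positivity)
      have h2 : (s + x) ^ (j + 1 + 1) = (s + x) ^ (j + 1) * (s + x) := pow_succ _ _
      have h3 : (s ^ (j + 1) + ((j : ℝ) + 1) * x * s ^ j) * (s + x) ≤ (s + x) ^ (j + 1) * (s + x) :=
        mul_le_mul_of_nonneg_right ih' (by positivity)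
      rw [h2]
      refine le_trans ?_ h3
      push_cast
      have h4 : 0 ≤ s ^ j := pow_nonneg hs j
      have e : (s ^ (j + 1) + ((j : ℝ) + 1) * x * s ^ j) * (s + x) =
          s ^ (j + 1 + 1) + ((j : ℝ) + 1 + 1) * x * s ^ (j + 1) + ((j : ℝ) + 1) * x ^ 2 * s ^ j := by
        ring
      rw [e]
      have : 0 ≤ ((j : ℝ) + 1) * x ^ 2 * s ^ j := by positivity
      linarith
  rw [h0]
  rw [div_add' _ _ _ (by positivity), div_le_div_iff_of_pos_right (by positivity)]
  have e : x * (s ^ j / j.factorial) * (((j : ℝ) + 1) * j.factorial) = (j + 1) * x * s ^ j := by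
    field_simp
  rw [e]
  exact h1

theorem esymm_le (S : Finset ℕ) (f : ℕ → ℝ) (hf : ∀ l ∈ S, 0 ≤ f l) (j : ℕ) :
    ∑ A ∈ S.powersetCard j, ∏ l ∈ A, f l ≤ (∑ l ∈ S, f l) ^ j / j.factorial := by
  classical
  induction S using Finset.induction_on generalizing j with
  | empty =>
    cases j with
    | zero => simp
    | succ j =>
      rw [Finset.powersetCard_eq_empty.2 (by simp)]
      simp
  | insert a S ha ih =>
    have hS : ∀ l ∈ S, 0 ≤ f l := fun l hl => hf l (Finset.mem_insert_of_mem hl)
    have hfa : 0 ≤ f a := hf a (Finset.mem_insert_self a S)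
    cases j with
    | zero => simp
    | succ j =>
      rw [Finset.powersetCard_succ_insert ha, Finset.sum_union, Finset.sum_image]
      · have h1 : ∑ A ∈ S.powersetCard j, ∏ l ∈ insert a A, f l =
            f a * ∑ A ∈ S.powersetCard j, ∏ l ∈ A, f l := by
          rw [Finset.mul_sum]
          refine Finset.sum_congr rfl fun A hA => ?_
          rw [Finset.prod_insert]
          exact fun h => ha ((Finset.mem_powersetCard.1 hA).1 h)
        rw [h1, Finset.sum_insert ha]
        have h2 := ih hS (j + 1)
        have h3 := mul_le_mul_of_nonneg_left (ih hS j) hfa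
        have h4 := e1_step (Finset.sum_nonneg hS) hfa j
        rw [add_comm (f a)]
        linarith
      · intro A hA B hB h
        have hA' : a ∉ A := fun h' => ha ((Finset.mem_powersetCard.1 hA).1 h')
        have hB' : a ∉ B := fun h' => ha ((Finset.mem_powersetCard.1 hB).1 h')
        rw [← Finset.erase_insert hA', ← Finset.erase_insert hB', h]
      · rw [Finset.disjoint_left]
        intro A hA hB
        obtain ⟨B, _, rfl⟩ := Finset.mem_image.1 hB
        exact ha ((Finset.mem_powersetCard.1 hA).1 (Finset.mem_insert_self a B))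

end Pool.Agent.Helper86.XE
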