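import Mathlib

/-!
# AAE, K1: the squarefree kernel
-/

set_option autoImplicit false

namespace Pool.Agent.Helper86.XE

theorem kernel (R : ℤ) (hR : R ≠ 0) (S : Finset ℕ) : ∃ A B : Finset ℕ, ∃ y ε : ℤ,
    (∀ l ∈ A, l ∈ S ∧ l.Prime ∧ (l : ℤ) ∣ R) ∧
    (∀ l ∈ B, l ∉ S ∧ l.Prime ∧ (l : ℤ) ∣ R ∧ Odd (padicValInt l R)) ∧ (ε = 1 ∨ ε = -1) ∧
    R = ε * (∏ l ∈ A, (l : ℤ)) * (∏ l ∈ B, (l : ℤ)) * y ^ 2 := by
  classical
  obtain ⟨a, b, hab, hsq⟩ := Nat.sq_mul_squarefree R.natAbs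
  have hn : R.natAbs ≠ 0 := Int.natAbs_ne_zero.2 hR
  have ha : a ≠ 0 := by
    rintro rfl
    exact hn (by rw [← hab]; simp)
  have hb : b ≠ 0 := by
    rintro rfl
    exact hn (by rw [← hab]; simp)
  have hdvd : ∀ l ∈ a.primeFactors, (l : ℤ) ∣ R := by
    intro l hl
    have h1 : l ∣ a := Nat.dvd_of_mem_primeFactors hl
    have h2 : l ∣ R.natAbs := by rw [← hab]; exact Dvd.dvd.mul_left h1 _
    exact Int.natCast_dvd.2 h2
  have hodd : ∀ l ∈ a.primeFactors, Odd (padicValInt l R) := by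
    intro l hl
    have hp : l.Prime := Nat.prime_of_mem_primeFactors hl
    have : Fact l.Prime := ⟨hp⟩
    have h1 : l ∣ a := Nat.dvd_of_mem_primeFactors hl
    have h3 : padicValNat l a = 1 := by
      have h4 : padicValNat l a ≤ 1 := by
        have := (Nat.squarefree_iff_factorization_le_one ha).1 hsq l
        rwa [Nat.factorization_def _ hp] at this
      have h5 : 1 ≤ padicValNat l a := one_le_padicValNat_of_dvd ha h1
      omega
    unfold padicValInt
    rw [← hab, padicValNat.mul (pow_ne_zero 2 hb) ha, padicValNat.pow, h3]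
    exact ⟨padicValNat l b, rfl⟩
  refine ⟨a.primeFactors.filter (· ∈ S), a.primeFactors.filter (· ∉ S), b, R.sign, ?_, ?_, ?_, ?_⟩
  · intro l hl
    rw [Finset.mem_filter] at hl
    exact ⟨hl.2, Nat.prime_of_mem_primeFactors hl.1, hdvd l hl.1⟩
  · intro l hl
    rw [Finset.mem_filter] at hl
    exact ⟨hl.2, Nat.prime_of_mem_primeFactors hl.1, hdvd l hl.1, hodd l hl.1⟩
  · rcases lt_or_gt_of_ne hR with h | h
    · right; exact Int.sign_eq_neg_one_of_neg h
    · left; exact Int.sign_eq_one_of_pos h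
  · have h1 : (∏ l ∈ a.primeFactors.filter (· ∈ S), (l : ℤ)) *
        (∏ l ∈ a.primeFactors.filter (· ∉ S), (l : ℤ)) = a := by
      rw [Finset.prod_filter_mul_prod_filter_not a.primeFactors (· ∈ S)]
      have h5 := Nat.prod_primeFactors_of_squarefree hsq
      conv_rhs => rw [← h5]
      rw [Nat.cast_prod]
    rw [mul_assoc R.sign, h1]
    have h2 : ((b ^ 2 * a : ℕ) : ℤ) = (R.natAbs : ℤ) := by rw [hab]
    rw [Nat.cast_mul, Nat.cast_pow] at h2
    calc R = R.sign * (R.natAbs : ℤ) := (Int.sign_mul_natAbs R).symm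
      _ = R.sign * a * b ^ 2 := by
        rw [← h2]; ring

end Pool.Agent.Helper86.XE
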