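import Pool.Agent.Helper84.AA.Asym
import Pool.Agent.Helper19.AAR.Good
import Pool.Agent.Helper84.AA.NiceGood

/-!
# The exceptional set is not smaller than exponential

`X h'` is not good, and the share of these polynomials is at least `exp (- C g)`.
-/

set_option autoImplicit false

open Polynomial

namespace Pool.Agent.Helper86.XE

open Pool.Agent.Helper84.AA
open Pool.Agent.Helper19.AAR (GoodR)

theorem trace_ratio {q : ℕ} (hq : 16 ≤ q) : ∃ C : ℝ, 0 < C ∧ ∃ G : ℕ, 2 ≤ G ∧ ∀ n ≥ G,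
    Real.exp (-(C * n)) * ((traceSet q n).ncard : ℝ) ≤ ((traceSet q (n - 1)).ncard : ℝ) := by
  obtain ⟨g₀, hg₀⟩ := lower hq
  have hσ := sigma_ge hq
  set σ : ℝ := √(q : ℝ) with hσd
  have hσ0 : (0 : ℝ) < σ := by linarith
  have he : (0 : ℝ) < Real.exp 1 := Real.exp_pos 1
  have he1 : (1 : ℝ) ≤ Real.exp 1 := Real.one_le_exp (by norm_num)
  refine ⟨Real.log (8 * Real.exp 1 * σ), Real.log_pos (by nlinarith), g₀ + 2, by omega,
    fun n hn => ?_⟩
  obtain ⟨m, rfl⟩ : ∃ m, n = m + 1 := ⟨n - 1, by omega⟩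
  rw [Nat.add_sub_cancel]
  have hlow := hg₀ m (by omega)
  have hup := upper_trace (q := q) (g := m + 1) (by omega) (by omega)
  have hexp : (m + 1) * (m + 1 + 1) / 2 = m * (m + 1) / 2 + (m + 1) := by
    have : (m + 1) * (m + 1 + 1) = m * (m + 1) + (m + 1) * 2 := by ring
    rw [this, Nat.add_mul_div_right _ _ (by norm_num)]
  rw [hexp, pow_add (√(q : ℝ)), Finset.prod_range_succ] at hup
  have hP := P_pos m
  set P : ℝ := ∏ j ∈ Finset.range m, Ik j with hPd
  have hS : 0 < σ ^ (m * (m + 1) / 2) := by positivity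
  set S : ℝ := σ ^ (m * (m + 1) / 2) with hSd
  have hI0 := Ik_pos m
  have hI2 := Ik_le_two m
  have hf : (2 * ((m + 1 : ℕ) : ℝ)) ^ (m + 1) / ((m + 1).factorial : ℝ) ≤
      (2 * Real.exp 1) ^ (m + 1) := by
    have h := pow_div_fact_le (n := m + 1) (g := m + 1)
    rw [mul_pow, mul_div_assoc, mul_pow]
    gcongr
  have h1 : ((traceSet q (m + 1)).ncard : ℝ) ≤
      (8 * Real.exp 1 * σ) ^ (m + 1) * (S * P) := by
    refine hup.trans ?_
    have e1 : 2 * (2 * ((m + 1 : ℕ) : ℝ)) ^ (m + 1) / ((m + 1).factorial : ℝ) =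
        2 * ((2 * ((m + 1 : ℕ) : ℝ)) ^ (m + 1) / ((m + 1).factorial : ℝ)) := by ring
    rw [e1]
    calc 2 * ((2 * ((m + 1 : ℕ) : ℝ)) ^ (m + 1) / ((m + 1).factorial : ℝ)) *
          (S * σ ^ (m + 1)) * (P * Ik m)
        ≤ 2 * ((2 * Real.exp 1) ^ (m + 1)) * (S * σ ^ (m + 1)) * (P * 2) := by gcongr
      _ = 4 * ((2 * Real.exp 1) ^ (m + 1) * σ ^ (m + 1)) * (S * P) := by ring
      _ ≤ 4 ^ (m + 1) * ((2 * Real.exp 1) ^ (m + 1) * σ ^ (m + 1)) * (S * P) := by
          have h4 : (4 : ℝ) ≤ 4 ^ (m + 1) := by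
            calc (4 : ℝ) = 4 ^ 1 := by norm_num
              _ ≤ 4 ^ (m + 1) := pow_le_pow_right₀ (by norm_num) (by omega)
          gcongr
      _ = (8 * Real.exp 1 * σ) ^ (m + 1) * (S * P) := by
          rw [← mul_pow, ← mul_pow]
          congr 2
          ring
  have h2 : S * P ≤ ((traceSet q m).ncard : ℝ) := by
    refine le_trans ?_ hlow
    have h3 : (1 : ℝ) ≤ (999 / 1000 : ℝ) ^ m * √2 ^ m := by
      rw [← mul_pow]
      apply one_le_pow₀
      have : (1.41 : ℝ) ≤ √2 := by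
        apply Real.le_sqrt_of_sq_le
        norm_num
      linarith
    calc S * P = 1 * (P * S) := by ring
      _ ≤ ((999 / 1000 : ℝ) ^ m * √2 ^ m) * (P * S) := by gcongr
      _ = _ := by ring
  have hb : 0 < 8 * Real.exp 1 * σ := by positivity
  have e2 : Real.exp (-(Real.log (8 * Real.exp 1 * σ) * ((m + 1 : ℕ) : ℝ))) =
      ((8 * Real.exp 1 * σ) ^ (m + 1))⁻¹ := by
    rw [Real.exp_neg, mul_comm, Real.exp_nat_mul, Real.exp_log hb]
  rw [e2]
  calc ((8 * Real.exp 1 * σ) ^ (m + 1))⁻¹ * ((traceSet q (m + 1)).ncard : ℝ)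
      ≤ ((8 * Real.exp 1 * σ) ^ (m + 1))⁻¹ * ((8 * Real.exp 1 * σ) ^ (m + 1) * (S * P)) := by
        gcongr
    _ = S * P := by
        field_simp
    _ ≤ _ := h2

lemma trace_mul_X {q n : ℕ} {h : ℤ[X]} (hh : IsTrace q n h) : IsTrace q (n + 1) (X * h) := by
  obtain ⟨h1, h2, h3⟩ := hh
  refine ⟨monic_X.mul h1, ?_, fun z hz => ?_⟩
  · rw [Monic.natDegree_mul monic_X h1, natDegree_X, h2, add_comm]
  · rw [map_mul, aeval_X, mul_eq_zero] at hz
    rcases hz with hz | hz
    · refine ⟨0, by rw [hz]; simp, ?_⟩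
      rw [zero_pow two_ne_zero]
      positivity
    · exact h3 z hz

lemma not_irred (q : ℕ) {h : ℤ[X]} (hm : h.Monic) (hd : 1 ≤ h.natDegree) :
    ¬ Irreducible (frob q (X * h)) := by
  have h1 : frob q (X * h) = (X ^ 2 + C (q : ℤ)) * frob q h := by
    have hdeg : (X * h).natDegree = h.natDegree + 1 := by
      rw [Monic.natDegree_mul monic_X hm, natDegree_X, add_comm]
    unfold frob
    rw [hdeg, Finset.sum_range_succ', coeff_X_mul_zero, Finset.mul_sum]
    simp only [C_0, zero_mul, add_zero, pow_zero, mul_one, coeff_X_mul]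
    refine Finset.sum_congr rfl fun j _ => ?_
    have e1 : h.natDegree + 1 - (j + 1) = h.natDegree - j := by omega
    rw [e1, pow_succ]
    ring
  rw [h1]
  intro hirr
  have hu1 : ¬ IsUnit (X ^ 2 + C (q : ℤ) : ℤ[X]) := by
    intro hu
    have := natDegree_eq_zero_of_isUnit hu
    rw [natDegree_X_pow_add_C] at this
    omega
  rcases hirr.isUnit_or_isUnit rfl with hu | hu
  · exact hu1 hu
  · have h2 : (frob q h).natDegree = 0 := natDegree_eq_zero_of_isUnit hu
    rw [frob_eq, (Pool.Agent.Helper19.Sign.weil_monic (q : ℤ) h hm).2] at h2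
    omega

/-- The share of the tuples which are not good is at least `exp (- C g_i)`. -/
theorem bad_lower {q : ℕ} (hq : 16 ≤ q) : ∃ C : ℝ, 0 < C ∧ ∃ G : ℕ, ∀ (k : ℕ) (g : Fin k → ℕ)
    (i : Fin k), G ≤ g i →
    Real.exp (-(C * g i)) *
      (({h : Fin k → ℤ[X] | ∀ j, h j ∈ traceSet q (g j)}.ncard : ℕ) : ℝ) ≤
      (({h : Fin k → ℤ[X] | (∀ j, h j ∈ traceSet q (g j)) ∧ ¬ GoodR q h}.ncard : ℕ) : ℝ) := by
  classical
  obtain ⟨C, hC, G, hG2, hG⟩ := trace_ratio hq
  refine ⟨C, hC, G, fun k g i hi => ?_⟩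
  have hfin : ∀ n, (traceSet q n).Finite := fun n => traceSet_finite q n
  -- the finsets
  set T : Fin k → Finset ℤ[X] := fun j => (hfin (g j)).toFinset with hT
  set U : Finset ℤ[X] := ((hfin (g i - 1)).toFinset).image (fun h => X * h) with hU
  have hinj : Function.Injective fun h : ℤ[X] => X * h := fun a b hab =>
    mul_left_cancel₀ X_ne_zero hab
  have hUc : (U.card : ℝ) = ((traceSet q (g i - 1)).ncard : ℝ) := by
    rw [hU, Finset.card_image_of_injective _ hinj, ← Set.ncard_eq_toFinset_card _ (hfin _)]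
  have hTc : ∀ j, ((T j).card : ℝ) = ((traceSet q (g j)).ncard : ℝ) := fun j => by
    rw [hT, ← Set.ncard_eq_toFinset_card _ (hfin _)]
  have hall : (({h : Fin k → ℤ[X] | ∀ j, h j ∈ traceSet q (g j)}.ncard : ℕ) : ℝ) =
      ∏ j, ((T j).card : ℝ) := by
    have h1 : {h : Fin k → ℤ[X] | ∀ j, h j ∈ traceSet q (g j)} = ↑(Fintype.piFinset T) := by
      ext h
      rw [Finset.mem_coe, Fintype.mem_piFinset]
      exact forall_congr' fun j => (Set.Finite.mem_toFinset (hfin _)).symm
    rw [h1, Set.ncard_coe_finset, Fintype.card_piFinset]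
    push_cast
    rfl
  have hsub : ((Fintype.piFinset (Function.update T i U) : Finset (Fin k → ℤ[X])) :
      Set (Fin k → ℤ[X])) ⊆
      {h : Fin k → ℤ[X] | (∀ j, h j ∈ traceSet q (g j)) ∧ ¬ GoodR q h} := by
    intro h hh
    rw [Finset.mem_coe, Fintype.mem_piFinset] at hh
    have hi' := hh i
    rw [Function.update_self, hU, Finset.mem_image] at hi'
    obtain ⟨u, hu, hui⟩ := hi'
    rw [Set.Finite.mem_toFinset] at hu
    have hu' : IsTrace q (g i - 1) u := hu
    refine ⟨fun j => ?_, fun hgood => ?_⟩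
    · by_cases hj : j = i
      · subst hj
        rw [← hui]
        have := trace_mul_X hu'
        rwa [Nat.sub_add_cancel (by omega)] at this
      · have := hh j
        rw [Function.update_of_ne hj, hT] at this
        exact (Set.Finite.mem_toFinset (hfin _)).1 this
    · have h1 := hgood.1 i
      rw [← hui] at h1
      exact not_irred q hu'.1 (by rw [hu'.2.1]; omega) h1
  have hbig : (∏ j, ((Function.update T i U j).card : ℝ)) ≤
      (({h : Fin k → ℤ[X] | (∀ j, h j ∈ traceSet q (g j)) ∧ ¬ GoodR q h}.ncard : ℕ) : ℝ) := by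
    have hfinb : {h : Fin k → ℤ[X] | (∀ j, h j ∈ traceSet q (g j)) ∧ ¬ GoodR q h}.Finite := by
      have h1 : {h : Fin k → ℤ[X] | ∀ j, h j ∈ traceSet q (g j)} = ↑(Fintype.piFinset T) := by
        ext h
        rw [Finset.mem_coe, Fintype.mem_piFinset]
        exact forall_congr' fun j => (Set.Finite.mem_toFinset (hfin _)).symm
      refine Set.Finite.subset (s := {h : Fin k → ℤ[X] | ∀ j, h j ∈ traceSet q (g j)}) ?_
        fun h hh => hh.1
      rw [h1]
      exact Finset.finite_toSet _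
    have h2 := Set.ncard_le_ncard hsub hfinb
    rw [Set.ncard_coe_finset, Fintype.card_piFinset] at h2
    exact_mod_cast h2
  refine le_trans ?_ hbig
  rw [hall]
  rw [← Finset.mul_prod_erase Finset.univ _ (Finset.mem_univ i),
    ← Finset.mul_prod_erase Finset.univ (fun j => ((Function.update T i U j).card : ℝ))
      (Finset.mem_univ i)]
  have h3 : ∏ j ∈ Finset.univ.erase i, ((Function.update T i U j).card : ℝ) =
      ∏ j ∈ Finset.univ.erase i, ((T j).card : ℝ) := by
    refine Finset.prod_congr rfl fun j hj => ?_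
    rw [Function.update_of_ne (Finset.ne_of_mem_erase hj)]
  rw [h3, Function.update_self, hUc, hTc, ← mul_assoc]
  exact mul_le_mul_of_nonneg_right (hG (g i) hi) (Finset.prod_nonneg fun j _ => Nat.cast_nonneg _)

end Pool.Agent.Helper86.XE
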